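import Pool.Agent.H83.UEG.Main

/-!
# The local U-step on a rectangle in dimension two, general time laws

A family in dimension two is a family in dimension three with the third coordinate zero. The frame
is `x_(σ 0), x_(σ 1) - a x_(σ 0)`.
-/

set_option autoImplicit false

namespace Pool.UEG

open Finset Real
open Pool.Agent.H49.Ent Pool.Agent.H32.Dense Pool.STK Pool.KA Pool.KSAT Pool.K2S
open Pool.S6U Pool.OCG

variable {J : ℕ}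

/-- The triangular frame in dimension two. -/
def tfr2 (σ : Fin 2 → Fin 2) (a : ℝ) (i j : Fin 2) : ℝ :=
  ![fun j => if j = σ 0 then 1 else 0,
    fun j => (if j = σ 1 then 1 else 0) - a * (if j = σ 0 then 1 else 0)] i j

/-- The frame of the window. -/
def frm2 {F : Fam 2 J} (σ : Fin 2 → Fin 2) (a : F.Ω → ℝ) (ω : F.Ω) : Fin 2 → Fin 2 → ℝ :=
  tfr2 σ (a ω)

/-- The precisions of the velocity. -/
def cv2 (v q : ℕ) (i : Fin 2) : ℕ := ![q, v + q] i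

/-- The family in dimension three. -/
noncomputable def lft (F : Fam 2 J) : Fam 3 J where
  Ω := F.Ω
  ζ := F.ζ
  fin := F.fin
  p := F.p
  u := fun ω => ![F.u ω 0, F.u ω 1, 0]
  d := fun ω => ![F.d ω 0, F.d ω 1, 0]
  T := F.T
  Z := F.Z
  isLaw := F.isLaw
  dir := by
    intro ω i
    fin_cases i
    · exact F.dir ω 0
    · exact F.dir ω 1
    · simp
  tim := F.tim

/-- The coordinates in dimension three. -/
def sg3 (σ : Fin 2 → Fin 2) (i : Fin 3) : Fin 3 :=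
  ![Fin.castSucc (σ 0), Fin.castSucc (σ 1), 2] i

theorem sg3_inj {σ : Fin 2 → Fin 2} (h : Function.Injective σ) :
    Function.Injective (sg3 σ) := by
  have h01 : σ 0 ≠ σ 1 := fun e => by have := h e; simp at this
  intro i j e
  fin_cases i <;> fin_cases j <;> simp [sg3] at e ⊢
  · exact h01 e
  · exact absurd e (Fin.castSucc_lt_last (σ 0)).ne
  · exact h01 e.symm
  · exact absurd e (Fin.castSucc_lt_last (σ 1)).ne
  · exact absurd e.symm (Fin.castSucc_lt_last (σ 0)).ne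
  · exact absurd e.symm (Fin.castSucc_lt_last (σ 1)).ne

theorem mco2_0 (σ : Fin 2 → Fin 2) (a : ℝ) (x : Fin 2 → ℝ) :
    mco (tfr2 σ a) x 0 = x (σ 0) := by
  simp [mco, tfr2]

theorem mco2_1 (σ : Fin 2 → Fin 2) (a : ℝ) (x : Fin 2 → ℝ) :
    mco (tfr2 σ a) x 1 = x (σ 1) - a * x (σ 0) := by
  simp [mco, tfr2, sub_mul, Finset.sum_sub_distrib]

theorem tfr2_eq {σ : Fin 2 → Fin 2} (hσ : Function.Injective σ) {a a' : ℝ}
    (h : tfr2 σ a = tfr2 σ a') : a = a' := by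
  have h01 : σ 0 ≠ σ 1 := fun h => by have := hσ h; simp at this
  have e1 := congrFun (congrFun h 1) (σ 0)
  simp [tfr2, h01] at e1
  exact e1

/-- The vector in dimension three. -/
theorem vec3 (x : Fin 2 → ℝ) (i : Fin 2) : (![x 0, x 1, 0] : Fin 3 → ℝ) (Fin.castSucc i) = x i := by
  fin_cases i
  · rfl
  · rfl

theorem mco3_0 (σ : Fin 2 → Fin 2) (a : ℝ) (x : Fin 2 → ℝ) :
    mco (tfr (sg3 σ) a 0 0) ![x 0, x 1, 0] 0 = mco (tfr2 σ a) x 0 := by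
  rw [Box.mco_tfr0, mco2_0]
  exact vec3 x (σ 0)

theorem mco3_1 (σ : Fin 2 → Fin 2) (a : ℝ) (x : Fin 2 → ℝ) :
    mco (tfr (sg3 σ) a 0 0) ![x 0, x 1, 0] 1 = mco (tfr2 σ a) x 1 := by
  rw [Box.mco_tfr1, mco2_1]
  have e0 : (![x 0, x 1, 0] : Fin 3 → ℝ) (sg3 σ 0) = x (σ 0) := vec3 x (σ 0)
  have e1 : (![x 0, x 1, 0] : Fin 3 → ℝ) (sg3 σ 1) = x (σ 1) := vec3 x (σ 1)
  rw [e0, e1]

theorem mco3_2 (σ : Fin 2 → Fin 2) (a : ℝ) (x : Fin 2 → ℝ) :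
    mco (tfr (sg3 σ) a 0 0) ![x 0, x 1, 0] 2 = 0 := by
  rw [Box.mco_tfr2]
  have e2 : (![x 0, x 1, 0] : Fin 3 → ℝ) (sg3 σ 2) = 0 := rfl
  rw [e2]
  ring

section lab

variable {F : Fam 2 J} {σ : Fin 2 → Fin 2} {a : F.Ω → ℝ} {w v q : ℕ} {ω ω' : F.Ω}

theorem x1_lft (g : ℕ) (ω : F.Ω) :
    (lft F).x1 g ω = ![F.x1 g ω 0, F.x1 g ω 1, 0] := by
  funext i
  fin_cases i
  · rfl
  · rfl
  · show (0 : ℝ) + _ * 0 = 0
    ring

theorem d_lft (ω : F.Ω) : (lft F).d ω = ![F.d ω 0, F.d ω 1, 0] := rfl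

theorem x_lft (ω : F.Ω) : (lft F).x ω = ![F.x ω 0, F.x ω 1, 0] := by
  funext i
  fin_cases i
  · rfl
  · rfl
  · show (0 : ℝ) + _ * 0 = 0
    ring

/-- The labels have the same classes. -/
theorem blb_lft (hσ : Function.Injective σ) :
    (lft F).blb w (cv v 0 q) (frm (F := lft F) (sg3 σ) a (fun _ => 0) (fun _ => 0)) ω =
      (lft F).blb w (cv v 0 q) (frm (F := lft F) (sg3 σ) a (fun _ => 0) (fun _ => 0)) ω' ↔
    F.blb w (cv2 v q) (frm2 σ a) ω = F.blb w (cv2 v q) (frm2 σ a) ω' := by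
  constructor
  · intro h
    obtain ⟨h1, h2, h3, h4, h5⟩ := Box.mlb_ext h
    have ha : a ω = a ω' := (Box.tfr_eq (sg3_inj hσ) h2).1
    refine Box.mlb_mk h1 ?_ ?_ ?_ h5
    · unfold frm2
      rw [ha]
    · funext i
      fin_cases i
      · have := congrFun h3 0
        change ⌊(2 : ℝ) ^ (q + w) * mco (tfr (sg3 σ) (a ω) 0 0) ((lft F).x1 w ω) 0⌋ =
          ⌊(2 : ℝ) ^ (q + w) * mco (tfr (sg3 σ) (a ω') 0 0) ((lft F).x1 w ω') 0⌋ at this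
        rw [x1_lft, x1_lft, mco3_0, mco3_0] at this
        exact this
      · have := congrFun h3 1
        change ⌊(2 : ℝ) ^ (v + q + w) * mco (tfr (sg3 σ) (a ω) 0 0) ((lft F).x1 w ω) 1⌋ =
          ⌊(2 : ℝ) ^ (v + q + w) * mco (tfr (sg3 σ) (a ω') 0 0) ((lft F).x1 w ω') 1⌋ at this
        rw [x1_lft, x1_lft, mco3_1, mco3_1] at this
        exact this
    · funext i
      fin_cases i
      · have := congrFun h4 0
        change ⌊(2 : ℝ) ^ q * mco (tfr (sg3 σ) (a ω) 0 0) ((lft F).d ω) 0⌋ =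
          ⌊(2 : ℝ) ^ q * mco (tfr (sg3 σ) (a ω') 0 0) ((lft F).d ω') 0⌋ at this
        rw [d_lft, d_lft, mco3_0, mco3_0] at this
        exact this
      · have := congrFun h4 1
        change ⌊(2 : ℝ) ^ (v + q) * mco (tfr (sg3 σ) (a ω) 0 0) ((lft F).d ω) 1⌋ =
          ⌊(2 : ℝ) ^ (v + q) * mco (tfr (sg3 σ) (a ω') 0 0) ((lft F).d ω') 1⌋ at this
        rw [d_lft, d_lft, mco3_1, mco3_1] at this
        exact this
  · intro h
    obtain ⟨h1, h2, h3, h4, h5⟩ := Box.mlb_ext h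
    have ha : a ω = a ω' := tfr2_eq hσ h2
    refine Box.mlb_mk h1 ?_ ?_ ?_ h5
    · unfold frm
      rw [ha]
    · funext i
      fin_cases i
      · have := congrFun h3 0
        change ⌊(2 : ℝ) ^ (q + w) * mco (tfr2 σ (a ω)) (F.x1 w ω) 0⌋ =
          ⌊(2 : ℝ) ^ (q + w) * mco (tfr2 σ (a ω')) (F.x1 w ω') 0⌋ at this
        change ⌊(2 : ℝ) ^ (q + w) * mco (tfr (sg3 σ) (a ω) 0 0) ((lft F).x1 w ω) 0⌋ =
          ⌊(2 : ℝ) ^ (q + w) * mco (tfr (sg3 σ) (a ω') 0 0) ((lft F).x1 w ω') 0⌋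
        rw [x1_lft, x1_lft, mco3_0, mco3_0]
        exact this
      · have := congrFun h3 1
        change ⌊(2 : ℝ) ^ (v + q + w) * mco (tfr2 σ (a ω)) (F.x1 w ω) 1⌋ =
          ⌊(2 : ℝ) ^ (v + q + w) * mco (tfr2 σ (a ω')) (F.x1 w ω') 1⌋ at this
        change ⌊(2 : ℝ) ^ (v + q + w) * mco (tfr (sg3 σ) (a ω) 0 0) ((lft F).x1 w ω) 1⌋ =
          ⌊(2 : ℝ) ^ (v + q + w) * mco (tfr (sg3 σ) (a ω') 0 0) ((lft F).x1 w ω') 1⌋
        rw [x1_lft, x1_lft, mco3_1, mco3_1]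
        exact this
      · change ⌊(2 : ℝ) ^ (0 + q + w) * mco (tfr (sg3 σ) (a ω) 0 0) ((lft F).x1 w ω) 2⌋ =
          ⌊(2 : ℝ) ^ (0 + q + w) * mco (tfr (sg3 σ) (a ω') 0 0) ((lft F).x1 w ω') 2⌋
        rw [x1_lft, x1_lft, mco3_2, mco3_2]
    · funext i
      fin_cases i
      · have := congrFun h4 0
        change ⌊(2 : ℝ) ^ q * mco (tfr2 σ (a ω)) (F.d ω) 0⌋ =
          ⌊(2 : ℝ) ^ q * mco (tfr2 σ (a ω')) (F.d ω') 0⌋ at this
        change ⌊(2 : ℝ) ^ q * mco (tfr (sg3 σ) (a ω) 0 0) ((lft F).d ω) 0⌋ =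
          ⌊(2 : ℝ) ^ q * mco (tfr (sg3 σ) (a ω') 0 0) ((lft F).d ω') 0⌋
        rw [d_lft, d_lft, mco3_0, mco3_0]
        exact this
      · have := congrFun h4 1
        change ⌊(2 : ℝ) ^ (v + q) * mco (tfr2 σ (a ω)) (F.d ω) 1⌋ =
          ⌊(2 : ℝ) ^ (v + q) * mco (tfr2 σ (a ω')) (F.d ω') 1⌋ at this
        change ⌊(2 : ℝ) ^ (v + q) * mco (tfr (sg3 σ) (a ω) 0 0) ((lft F).d ω) 1⌋ =
          ⌊(2 : ℝ) ^ (v + q) * mco (tfr (sg3 σ) (a ω') 0 0) ((lft F).d ω') 1⌋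
        rw [d_lft, d_lft, mco3_1, mco3_1]
        exact this
      · change ⌊(2 : ℝ) ^ (0 + q) * mco (tfr (sg3 σ) (a ω) 0 0) ((lft F).d ω) 2⌋ =
          ⌊(2 : ℝ) ^ (0 + q) * mco (tfr (sg3 σ) (a ω') 0 0) ((lft F).d ω') 2⌋
        rw [d_lft, d_lft, mco3_2, mco3_2]

theorem slam_lft : slam (lft F) w ω = slam (lft F) w ω' ↔ slam F w ω = slam F w ω' := by
  have key : ∀ (x y : Fin 2 → ℝ), (![x 0, x 1, 0] : Fin 3 → ℝ) = ![y 0, y 1, 0] ↔ x = y := by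
    intro x y
    constructor
    · intro h
      funext i
      fin_cases i
      · exact congrFun h 0
      · exact congrFun h 1
    · rintro rfl
      rfl
  constructor
  · intro h
    have h1 := Prod.ext_iff.mp h
    have h2 := Prod.ext_iff.mp h1.1
    exact Prod.ext (Prod.ext ((key _ _).1 h2.1) ((key _ _).1 h2.2)) h1.2
  · intro h
    have h1 := Prod.ext_iff.mp h
    have h2 := Prod.ext_iff.mp h1.1
    exact Prod.ext (Prod.ext ((key _ _).2 h2.1) ((key _ _).2 h2.2)) h1.2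

theorem mu_lft0 (k : Fin 3 → ℕ) (k2 : Fin 2 → ℕ) (hk : k 0 = k2 0) (ω : F.Ω) :
    (lft F).mu w k (frm (F := lft F) (sg3 σ) a (fun _ => 0) (fun _ => 0)) ω 0 =
      F.mu w k2 (frm2 σ a) ω 0 := by
  show Int.fract (2 ^ k 0 * mco (tfr (sg3 σ) (a ω) 0 0) ((lft F).x1 w ω) 0) =
    Int.fract (2 ^ k2 0 * mco (tfr2 σ (a ω)) (F.x1 w ω) 0)
  rw [x1_lft, mco3_0, hk]

theorem mu_lft1 (k : Fin 3 → ℕ) (k2 : Fin 2 → ℕ) (hk : k 1 = k2 1) (ω : F.Ω) :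
    (lft F).mu w k (frm (F := lft F) (sg3 σ) a (fun _ => 0) (fun _ => 0)) ω 1 =
      F.mu w k2 (frm2 σ a) ω 1 := by
  show Int.fract (2 ^ k 1 * mco (tfr (sg3 σ) (a ω) 0 0) ((lft F).x1 w ω) 1) =
    Int.fract (2 ^ k2 1 * mco (tfr2 σ (a ω)) (F.x1 w ω) 1)
  rw [x1_lft, mco3_1, hk]

theorem md_lft0 (k : Fin 3 → ℕ) (k2 : Fin 2 → ℕ) (hk : k 0 = k2 0) (ω : F.Ω) :
    (lft F).md k (frm (F := lft F) (sg3 σ) a (fun _ => 0) (fun _ => 0)) ω 0 =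
      F.md k2 (frm2 σ a) ω 0 := by
  show Int.fract (2 ^ k 0 * mco (tfr (sg3 σ) (a ω) 0 0) ((lft F).d ω) 0) =
    Int.fract (2 ^ k2 0 * mco (tfr2 σ (a ω)) (F.d ω) 0)
  rw [d_lft, mco3_0, hk]

theorem md_lft1 (k : Fin 3 → ℕ) (k2 : Fin 2 → ℕ) (hk : k 1 = k2 1) (ω : F.Ω) :
    (lft F).md k (frm (F := lft F) (sg3 σ) a (fun _ => 0) (fun _ => 0)) ω 1 =
      F.md k2 (frm2 σ a) ω 1 := by
  show Int.fract (2 ^ k 1 * mco (tfr (sg3 σ) (a ω) 0 0) ((lft F).d ω) 1) =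
    Int.fract (2 ^ k2 1 * mco (tfr2 σ (a ω)) (F.d ω) 1)
  rw [d_lft, mco3_1, hk]

theorem wt_lft (w : ℕ) (ω : F.Ω) : (lft F).wt w ω = F.wt w ω := rfl

theorem mx_lft0 (ω : F.Ω) :
    (lft F).mx w (cv v 0 q) (frm (F := lft F) (sg3 σ) a (fun _ => 0) (fun _ => 0)) ω 0 =
      F.mx w (cv2 v q) (frm2 σ a) ω 0 := by
  unfold Fam.mx
  rw [mu_lft0 (k2 := fun i => cv2 v q i + w) _ rfl, md_lft0 (k2 := cv2 v q) _ rfl]
  rfl

theorem mx_lft1 (ω : F.Ω) :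
    (lft F).mx w (cv v 0 q) (frm (F := lft F) (sg3 σ) a (fun _ => 0) (fun _ => 0)) ω 1 =
      F.mx w (cv2 v q) (frm2 σ a) ω 1 := by
  unfold Fam.mx
  rw [mu_lft1 (k2 := fun i => cv2 v q i + w) _ rfl, md_lft1 (k2 := cv2 v q) _ rfl]
  rfl

end lab

/-- **The frames on the rectangle.** `al` is the own slope, `a w` the slope of the window, a
multiple of `2 ^ (- vp w)`. -/
structure Rc2 (F : Fam 2 J) (p : F.Ω → ℝ) (σ : Fin 2 → Fin 2) (wa wb : ℕ) (vp : ℕ → ℕ) (D : ℕ)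
    (a : ℕ → F.Ω → ℝ) (al : F.Ω → ℝ) : Prop where
  law : IsLaw p
  inj : Function.Injective σ
  wJ : wb ≤ J
  mono : ∀ w w', wa ≤ w → w ≤ w' → w' ≤ wb → vp w ≤ vp w'
  vD : ∀ w, wa ≤ w → w ≤ wb → vp w ≤ D
  near : ∀ w, wa ≤ w → w ≤ wb → ∀ ω, 0 < p ω → |al ω - a w ω| ≤ 3 / 2 ^ vp w
  grid : ∀ w, wa ≤ w → w ≤ wb → ∀ ω, 0 < p ω → ∃ n : ℤ, a w ω = n / 2 ^ vp w
  det : ∀ w, wa ≤ w → w ≤ wb → Det p (slam F w) (a w)

/-- The slope seen in the context. -/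
noncomputable def sl2 {F : Fam 2 J} (v D : ℕ) (a al : F.Ω → ℝ) (ω : F.Ω) : ℝ :=
  2 ^ v * ((Uni.dg D al ω : ℝ) / 2 ^ D - a ω)

theorem Rc2.lft {F : Fam 2 J} {p : F.Ω → ℝ} {σ : Fin 2 → Fin 2} {wa wb : ℕ} {vp : ℕ → ℕ} {D : ℕ}
    {a : ℕ → F.Ω → ℝ} {al : F.Ω → ℝ} (h : Rc2 F p σ wa wb vp D a al) :
    Rc (lft F) p (sg3 σ) wa wb vp D a (fun _ => 0) (fun _ => 0) al :=
  ⟨h.law, sg3_inj h.inj, h.wJ, h.mono, h.vD, h.near, h.grid, fun w h1 h2 ω ω' hω hω' e =>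
    Prod.ext (h.det w h1 h2 ω ω' hω hω' (slam_lft.1 e)) rfl⟩

/-- Two copies with the same classes. -/
theorem nr_lft {F : Fam 2 J} (p : F.Ω → ℝ) (w k' i : ℕ) :
    nr p (slam (lft F) w) ((lft F).wt w) k' i = nr p (slam F w) (F.wt w) k' i := by
  unfold nr
  have h : dbl p (kp (slam (lft F) w) ((lft F).wt w) i) = dbl p (kp (slam F w) (F.wt w) i) := by
    refine dbl_congr fun ω ω' => ?_
    unfold kp
    constructor
    · intro e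
      have e1 := Prod.ext_iff.mp e
      exact Prod.ext (slam_lft.1 e1.1) e1.2
    · intro e
      have e1 := Prod.ext_iff.mp e
      exact Prod.ext (slam_lft.2 e1.1) e1.2
  rw [h]
  rfl

/-- **The U-step on a rectangle in dimension two, general time laws.** -/
theorem ueg_rect2 : ∀ ε ca ρ : ℝ, 0 < ε → 0 < ca → 0 < ρ → ∃ (x₁ ϖ δ₃ ε₁ εN : ℝ),
    0 < x₁ ∧ 0 < ϖ ∧ ϖ ≤ 1 ∧ 0 < δ₃ ∧ 0 < ε₁ ∧ 0 < εN ∧ ∀ k' : ℕ,
    ∃ (γ : ℝ) (n d₀ : ℕ), 0 < γ ∧ γ ≤ 1 ∧ 1 ≤ n ∧ 1 ≤ d₀ ∧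
    ∀ {J : ℕ} (F : Fam 2 J) (p : F.Ω → ℝ) (σ : Fin 2 → Fin 2) (wa wb : ℕ) (vp : ℕ → ℕ) (D R : ℕ)
      (a : ℕ → F.Ω → ℝ) (al : F.Ω → ℝ) (d tt qa qb : ℕ),
      Rc2 F p σ wa wb vp D a al → wa ≤ wb → qa ≤ qb → d₀ ≤ d → n * d ≤ tt →
      wb ≤ R → R ≤ J → Det p (F.T1 R) F.T →
      (∀ w w', wa ≤ w → w + tt ≤ w' → w' ≤ wb → vp w + n * d ≤ vp w') →
      (tt : ℝ) ≤ γ * (wb + 1 - wa : ℕ) → ((n * d : ℕ) : ℝ) ≤ γ * (qb - qa : ℕ) →
      ((D - vp wa : ℕ) : ℝ) ≤ γ * (qb - qa : ℕ) → ((R - wa : ℕ) : ℝ) ≤ γ * (qb - qa : ℕ) →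
      wb + vp wb ≤ wa + vp wa + (qb - qa) →
      (∀ w, wa ≤ w → w ≤ wb → ∀ E : F.Ω → Prop, ϖ ≤ Pe p E →
        ∑ i ∈ Finset.range (n * d), nr (Pool.Agent.H49.Ent.cond p E True) (slam F w) (F.wt w)
          k' i ≤ εN * (n * d : ℕ) ∧
        Pool.KAF.Pr (dbl (Pool.Agent.H49.Ent.cond p E True) (slam F w))
          {v | |sl2 (vp w) D (a w) al v.2 - sl2 (vp w) D (a w) al v.1| <
            (2 : ℝ) ^ (-(x₁ * (n * d : ℕ)))} ≤ ε₁) →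
      (∀ w q X', wa ≤ w → w ≤ wb → qa ≤ q → q + X' ≤ qb + n * d → 0 < X' → X' ≤ n * d → d ∣ X' →
        ∀ E : F.Ω → Prop, ϖ ≤ Pe p E →
        X' * Real.log 2 - δ₃ * (n * d : ℕ) ≤ CH (Pool.Agent.H49.Ent.cond p E True)
          (Uni.dg X' (fun ω => F.mx w (cv2 (vp w) q) (frm2 σ (a w)) ω 0))
          (fun ω => (F.blb w (cv2 (vp w) q) (frm2 σ (a w)) ω, F.T ω)) ∧
        ca * X' * Real.log 2 ≤ CH (Pool.Agent.H49.Ent.cond p E True)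
          (Uni.dg X' (fun ω => F.md (cv2 (vp w) q) (frm2 σ (a w)) ω 0))
          (F.blb w (cv2 (vp w) q) (frm2 σ (a w)))) →
      ∃ B : Finset (ℕ × ℕ), (B.card : ℝ) ≤ ρ * ((wb + 1 - wa : ℕ) * (qb - qa : ℕ)) ∧
        ∀ w q, wa ≤ w → w ≤ wb → qa ≤ q → q < qb → (w, q) ∉ B →
          (1 - ε) * (n * d : ℕ) * Real.log 2 ≤
            CH p (Uni.dg (n * d) (tnu F w (cv2 (vp w) q) (frm2 σ (a w)) 0 1
              (sl2 (vp w) D (a w) al)))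
              (fun ω => (vd F 0 1 w (cv2 (vp w) q) (frm2 σ (a w)) (n * d) ω,
                cdn F w (cv2 (vp w) q) (frm2 σ (a w)) (Uni.dg D al) ω)) ∧
          (2 - ε) * (n * d : ℕ) * Real.log 2 ≤
            CH p (fun ω => (Uni.dg (n * d) (tnu F w (cv2 (vp w) q) (frm2 σ (a w)) 0 1
                (sl2 (vp w) D (a w) al)) ω,
              Uni.dg (n * d) (fun ω => F.mx w (cv2 (vp w) q) (frm2 σ (a w)) ω 0) ω))
              (cdn F w (cv2 (vp w) q) (frm2 σ (a w)) (Uni.dg D al)) := by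
  intro ε ca ρ hε hca hρ
  obtain ⟨x₁, ϖ, δ₃, ε₁, εN, hx₁, hϖ, hϖ1, hδ₃, hε₁, hεN, hue⟩ := ueg_rect ε ca ρ hε hca hρ
  refine ⟨x₁, ϖ, δ₃, ε₁, εN, hx₁, hϖ, hϖ1, hδ₃, hε₁, hεN, ?_⟩
  intro k'
  obtain ⟨γ, n, d₀, hγ, hγ1, hn, hd₀, hue⟩ := hue k'
  refine ⟨γ, n, d₀, hγ, hγ1, hn, hd₀, ?_⟩
  intro J F p σ wa wb vp D R a al d tt qa qb hR hw hq hd hX hwR hRJ hTR htt htγ hXγ hDγ hRγ hrise
    hT hE
  have hp := hR.law
  have h0 := hp.nonneg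
  have hmx : ∀ w v q (b : F.Ω → ℝ) X, Uni.dg (Ω := F.Ω) X (fun ω => (lft F).mx w (cv v 0 q)
      (frm (F := lft F) (sg3 σ) b (fun _ => 0) (fun _ => 0)) ω 0) =
      Uni.dg X (fun ω => F.mx w (cv2 v q) (frm2 σ b) ω 0) := by
    intro w v q b X
    funext ω
    exact congrArg (fun x : ℝ => ⌊(2 : ℝ) ^ X * x⌋) (mx_lft0 (F := F) (σ := σ) (a := b) ω)
  have hmd : ∀ v q (b : F.Ω → ℝ) X, Uni.dg (Ω := F.Ω) X (fun ω => (lft F).md (cv v 0 q)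
      (frm (F := lft F) (sg3 σ) b (fun _ => 0) (fun _ => 0)) ω 0) =
      Uni.dg X (fun ω => F.md (cv2 v q) (frm2 σ b) ω 0) := by
    intro v q b X
    funext ω
    exact congrArg (fun x : ℝ => ⌊(2 : ℝ) ^ X * x⌋)
      (md_lft0 (F := F) (σ := σ) (a := b) (cv v 0 q) (cv2 v q) rfl ω)
  have hnu : ∀ w v q (b : F.Ω → ℝ) X, Uni.dg (Ω := F.Ω) X (tnu (lft F) w (cv v 0 q)
      (frm (F := lft F) (sg3 σ) b (fun _ => 0) (fun _ => 0)) 0 1 (sl (F := lft F) v D b al)) =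
      Uni.dg X (tnu F w (cv2 v q) (frm2 σ b) 0 1 (sl2 v D b al)) := by
    intro w v q b X
    funext ω
    have e : tnu (lft F) w (cv v 0 q)
        (frm (F := lft F) (sg3 σ) b (fun _ => 0) (fun _ => 0)) 0 1 (sl (F := lft F) v D b al) ω =
        tnu F w (cv2 v q) (frm2 σ b) 0 1 (sl2 v D b al) ω := by
      unfold tnu
      rw [mx_lft0, mx_lft1]
      rfl
    exact congrArg (fun x : ℝ => ⌊(2 : ℝ) ^ X * x⌋) e
  have hvd : ∀ w v q (b : F.Ω → ℝ) X, (vd (lft F) 0 1 w (cv v 0 q)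
      (frm (F := lft F) (sg3 σ) b (fun _ => 0) (fun _ => 0)) X : F.Ω → ℤ × (ℤ × ℤ)) =
      vd F 0 1 w (cv2 v q) (frm2 σ b) X := by
    intro w v q b X
    funext ω
    have e1 := mu_lft0 (F := F) (σ := σ) (a := b) (w := w) (fun i => cv v 0 q i + w)
      (fun i => cv2 v q i + w) rfl ω
    have e2 := md_lft0 (F := F) (σ := σ) (a := b) (cv v 0 q) (cv2 v q) rfl ω
    have e3 := md_lft1 (F := F) (σ := σ) (a := b) (cv v 0 q) (cv2 v q) rfl ω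
    exact Prod.ext (congrArg (fun x : ℝ => ⌊(2 : ℝ) ^ X * x⌋) e1)
      (Prod.ext (congrArg (fun x : ℝ => ⌊(2 : ℝ) ^ X * x⌋) e2)
        (congrArg (fun x : ℝ => ⌊(2 : ℝ) ^ X * x⌋) e3))
  obtain ⟨B, hB1, hB2⟩ := hue (lft F) p (sg3 σ) wa wb vp D R a (fun _ => 0) (fun _ => 0) al 0 d tt
    qa qb hR.lft hw hq hd hX hwR hRJ hTR htt htγ hXγ hDγ hRγ hrise
    (fun w h1 h2 E hPE => by
      have h3 := hT w h1 h2 E hPE
      constructor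
      · refine le_trans (le_of_eq ?_) h3.1
        exact Finset.sum_congr rfl fun i _ => nr_lft _ w k' i
      · refine le_trans (le_of_eq ?_) h3.2
        have h4 : dbl (Pool.Agent.H49.Ent.cond p E True) (slam (lft F) w) =
          dbl (Pool.Agent.H49.Ent.cond p E True) (slam F w) := dbl_congr fun ω ω' => slam_lft
        exact congrArg (fun g => Pool.KAF.Pr g {v : F.Ω × F.Ω | |sl2 (vp w) D (a w) al v.2 -
          sl2 (vp w) D (a w) al v.1| < (2 : ℝ) ^ (-(x₁ * (n * d : ℕ)))}) h4)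
    (fun w q X' h1 h2 h3 h4 h5 h6 h7 E hPE => by
      have h8 := hE w q X' h1 h2 h3 h4 h5 h6 h7 E hPE
      have hc : ∀ ω, 0 ≤ Pool.Agent.H49.Ent.cond p E True ω := cond_nonneg h0 _ _
      constructor
      · refine h8.1.trans (le_of_eq ?_)
        rw [← hmx]
        refine CH_congr hc (fun _ _ _ _ h => (Prod.ext_iff.mp h).1)
          (fun _ _ _ _ h => (Prod.ext_iff.mp h).1) ?_ ?_
        · intro ω ω' _ _ e
          have e1 := Prod.ext_iff.mp e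
          exact Prod.ext ((blb_lft hR.inj).2 e1.1) e1.2
        · intro ω ω' _ _ e
          have e1 := Prod.ext_iff.mp e
          exact Prod.ext ((blb_lft hR.inj).1 e1.1) e1.2
      · refine h8.2.trans (le_of_eq ?_)
        rw [← hmd]
        refine CH_congr hc (fun _ _ _ _ h => (Prod.ext_iff.mp h).1)
          (fun _ _ _ _ h => (Prod.ext_iff.mp h).1) ?_ ?_
        · intro ω ω' _ _ e
          exact (blb_lft hR.inj).2 e
        · intro ω ω' _ _ e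
          exact (blb_lft hR.inj).1 e)
  refine ⟨B, hB1, ?_⟩
  intro w q h1 h2 h3 h4 hwq
  have key := hB2 w q h1 h2 h3 h4 hwq
  have dc1 : Det p (cdn (lft F) w (cv (vp w) 0 q)
      (frm (F := lft F) (sg3 σ) (a w) (fun _ => 0) (fun _ => 0)) (Uni.dg D al))
      (cdn F w (cv2 (vp w) q) (frm2 σ (a w)) (Uni.dg D al)) := by
    intro ω ω' _ _ e
    have e1 := Prod.ext_iff.mp e
    exact Prod.ext ((blb_lft hR.inj).1 e1.1) e1.2
  have dc2 : Det p (cdn F w (cv2 (vp w) q) (frm2 σ (a w)) (Uni.dg D al))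
      (cdn (lft F) w (cv (vp w) 0 q)
      (frm (F := lft F) (sg3 σ) (a w) (fun _ => 0) (fun _ => 0)) (Uni.dg D al)) := by
    intro ω ω' _ _ e
    have e1 := Prod.ext_iff.mp e
    exact Prod.ext ((blb_lft hR.inj).2 e1.1) e1.2
  constructor
  · refine key.1.trans (le_of_eq ?_)
    rw [← hnu, ← hvd]
    refine CH_congr h0 (fun _ _ _ _ h => (Prod.ext_iff.mp h).1)
      (fun _ _ _ _ h => (Prod.ext_iff.mp h).1) ?_ ?_
    · intro ω ω' x y e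
      have e1 := Prod.ext_iff.mp e
      exact Prod.ext e1.1 (dc1 ω ω' x y e1.2)
    · intro ω ω' x y e
      have e1 := Prod.ext_iff.mp e
      exact Prod.ext e1.1 (dc2 ω ω' x y e1.2)
  · refine key.2.trans (le_of_eq ?_)
    rw [← hnu, ← hmx]
    exact CH_congr h0 (fun _ _ _ _ h => (Prod.ext_iff.mp h).1)
      (fun _ _ _ _ h => (Prod.ext_iff.mp h).1) dc1 dc2

end Pool.UEG
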