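import Pool.Agent.H83.UEG.TwoV
import Pool.Agent.H64.PC.Full

/-!
# Row FULL on a rectangle

Outside a small proportion of the rectangle, the label of the window `w + X` in the context of the
window `w`, the time (of resolution `R`) and the own slope has nearly the maximal entropy
`(2 X + vp (w + X) - vp w) log 2`.
-/

set_option autoImplicit false

namespace Pool.UEG

open Finset Real
open Pool.Agent.H49.Ent Pool.Agent.H32.Dense Pool.STK Pool.KA Pool.KSAT Pool.K2S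
open Pool.S6U Pool.OCG

variable {J : ℕ}

theorem isf_frm2 {F : Fam 2 J} (σ : Fin 2 → Fin 2) (a : F.Ω → ℝ) (ω : F.Ω) :
    Pool.PC.Isf σ (frm2 σ a ω) (a ω) := fun x => ⟨mco2_0 σ (a ω) x, mco2_1 σ (a ω) x⟩

theorem Rc2.near4 {F : Fam 2 J} {p : F.Ω → ℝ} {σ : Fin 2 → Fin 2} {wa wb : ℕ} {vp : ℕ → ℕ}
    {D : ℕ} {a : ℕ → F.Ω → ℝ} {al : F.Ω → ℝ} (h : Rc2 F p σ wa wb vp D a al) {w : ℕ}
    (h1 : wa ≤ w) (h2 : w ≤ wb) {ω : F.Ω} (hω : 0 < p ω) :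
    |(Uni.dg D al ω : ℝ) / 2 ^ D - a w ω| ≤ 4 / 2 ^ vp w := by
  have k1 := h.near w h1 h2 ω hω
  have k2 : |(Uni.dg D al ω : ℝ) / 2 ^ D - al ω| ≤ 1 / 2 ^ D := dg_near (F := Pool.UEG.lft F) D al ω
  have k3 := pw_le (h.vD w h1 h2) (zero_le_one (α := ℝ))
  have e : (4 : ℝ) / 2 ^ vp w = 1 / 2 ^ vp w + 3 / 2 ^ vp w := by ring
  have e2 : (Uni.dg D al ω : ℝ) / 2 ^ D - a w ω =
      ((Uni.dg D al ω : ℝ) / 2 ^ D - al ω) + (al ω - a w ω) := by ring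
  rw [e, e2]
  refine (abs_add_le _ _).trans ?_
  linarith

/-- **FULL at one context** from the pairs at the contexts `(w, q + j X)`. -/
theorem full_of {F : Fam 2 J} {p : F.Ω → ℝ} {σ : Fin 2 → Fin 2} {wa wb : ℕ} {vp : ℕ → ℕ}
    {D : ℕ} {a : ℕ → F.Ω → ℝ} {al : F.Ω → ℝ} {X V w q : ℕ} {ε C : ℝ} (hε : 0 ≤ ε)
    (hC : ∀ {J : ℕ} (F : Fam 2 J) (p : F.Ω → ℝ)
    (_ : IsLaw p) (σ : Fin 2 → Fin 2) {Θ : Type} (θ : F.Ω → Θ) (w X l l' q n : ℕ)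
    (M M' : F.Ω → Fin 2 → Fin 2 → ℝ) (a a' al S : F.Ω → ℝ) (e : ℕ → ℝ),
    w + X ≤ J → l ≤ l' → l' ≤ l + n * X → Det p θ F.T → Det p θ al →
    (∀ ω, 0 < p ω → Pool.PC.Isf σ (M ω) (a ω) ∧ Pool.PC.Isf σ (M' ω) (a' ω) ∧
      |al ω - a ω| ≤ 4 / 2 ^ l ∧
      |al ω - a' ω| ≤ 4 / 2 ^ l' ∧ S ω = 2 ^ l * (al ω - a ω)) →
    (∀ j, j ≤ n → 0 ≤ e j) →
    (∀ j, j ≤ n → 2 * X * Real.log 2 - e j ≤
      CH p (fun ω => (⌊(2 : ℝ) ^ X * (F.mx w (Pool.PC.cv2 l (q + j * X)) M ω 1 -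
          S ω * F.mx w (Pool.PC.cv2 l (q + j * X)) M ω 0)⌋,
        ⌊(2 : ℝ) ^ X * F.mx w (Pool.PC.cv2 l (q + j * X)) M ω 0⌋))
        (fun ω => (F.blb w (Pool.PC.cv2 l (q + j * X)) M ω, θ ω))) →
    (2 * X + (l' - l : ℕ)) * Real.log 2 - ∑ j ∈ Finset.range (n + 1), e j - C * (n + 2) ≤
      CH p (F.blb (w + X) (Pool.PC.cv2 l' q) M')
        (fun ω => (F.blb w (Pool.PC.cv2 l q) M ω, θ ω)))
    (h : Rc2 F p σ wa wb vp D a al) (h1 : wa ≤ w) (h2 : w + X ≤ wb)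
    (hV : vp (w + X) ≤ vp w + V * X)
    (hc : ∀ j ≤ V, Cc2 F p σ vp D a al X ε w (q + j * X)) :
    (2 * X + (vp (w + X) - vp w : ℕ)) * Real.log 2 - (V + 1) * (ε * X * Real.log 2) -
        C * (V + 2) ≤
      CH p (F.blb (w + X) (cv2 (vp (w + X)) q) (frm2 σ (a (w + X))))
        (fun ω => (F.blb w (cv2 (vp w) q) (frm2 σ (a w)) ω, (Uni.dg D al ω, F.T ω))) := by
  have hp := h.law
  have hl2 : 0 ≤ Real.log 2 := Real.log_nonneg (by norm_num)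
  have hwJ := h.wJ
  have key := hC F p hp σ (fun ω => (Uni.dg D al ω, F.T ω)) w X (vp w) (vp (w + X)) q V
    (frm2 σ (a w)) (frm2 σ (a (w + X))) (a w) (a (w + X)) (fun ω => (Uni.dg D al ω : ℝ) / 2 ^ D)
    (sl2 (vp w) D (a w) al) (fun _ => ε * X * Real.log 2) (h2.trans hwJ)
    (h.mono w (w + X) h1 (by omega) h2) hV (fun _ _ _ _ e => (Prod.ext_iff.mp e).2)
    (fun ω ω' _ _ e => by
      have e1 : Uni.dg D al ω = Uni.dg D al ω' := (Prod.ext_iff.mp e).1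
      show (Uni.dg D al ω : ℝ) / 2 ^ D = (Uni.dg D al ω' : ℝ) / 2 ^ D
      rw [e1])
    (fun ω hω => ⟨isf_frm2 σ (a w) ω, isf_frm2 σ (a (w + X)) ω, h.near4 h1 (by omega) hω,
      h.near4 (by omega) h2 hω, rfl⟩)
    (fun j _ => by positivity) (fun j hj => by
      refine le_trans (le_of_eq ?_) (hc j hj).pr
      ring)
  rw [Finset.sum_const, Finset.card_range, nsmul_eq_mul] at key
  push_cast at key
  exact key

/-- **FULL on a rectangle.** -/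
theorem ueg_full : ∀ (ε ca ρ : ℝ) (V : ℕ), 0 < ε → 0 < ca → 0 < ρ →
    ∃ (x₁ ϖ δ₃ ε₁ εN : ℝ), 0 < x₁ ∧ 0 < ϖ ∧ ϖ ≤ 1 ∧ 0 < δ₃ ∧ 0 < ε₁ ∧ 0 < εN ∧ ∀ k' : ℕ,
    ∃ (γ : ℝ) (n d₀ : ℕ), 0 < γ ∧ γ ≤ 1 ∧ 1 ≤ n ∧ 1 ≤ d₀ ∧
    ∀ {J : ℕ} (F : Fam 2 J) (p : F.Ω → ℝ) (σ : Fin 2 → Fin 2) (wa wb : ℕ) (vp : ℕ → ℕ) (D R : ℕ)
      (a : ℕ → F.Ω → ℝ) (al : F.Ω → ℝ) (d tt qa qb : ℕ), d₀ ≤ d →
      Rc2 F p σ wa wb vp D a al → Sh2 wa wb vp D R tt (n * d) qa qb γ →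
      wb ≤ R → R ≤ J → Det p (F.T1 R) F.T →
      Hy2 F p σ wa wb vp D a al d (n * d) qa qb k' x₁ ϖ δ₃ ε₁ εN ca →
      ∃ B : Finset (ℕ × ℕ), (B.card : ℝ) ≤ ρ * ((wb + 1 - wa : ℕ) * (qb - qa : ℕ)) ∧
        ∀ w q, wa ≤ w → w ≤ wb → qa ≤ q → q < qb → (w, q) ∉ B →
          w + n * d ≤ wb ∧ q + V * (n * d) < qb ∧
          (∀ j ≤ V, Cc2 F p σ vp D a al (n * d) ε w (q + j * (n * d))) ∧
          (vp (w + n * d) ≤ vp w + V * (n * d) →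
            (2 * (n * d : ℕ) + (vp (w + n * d) - vp w : ℕ)) * Real.log 2 -
                ε * (n * d : ℕ) * Real.log 2 ≤
              CH p (F.blb (w + n * d) (cv2 (vp (w + n * d)) q) (frm2 σ (a (w + n * d))))
                (fun ω => (F.blb w (cv2 (vp w) q) (frm2 σ (a w)) ω,
                  (Uni.dg D al ω, F.T ω)))) := by
  intro ε ca ρ V hε hca hρ
  obtain ⟨C, hC0, hC⟩ := Pool.PC.ue_box 4 (by norm_num)
  have hV : (0 : ℝ) < V + 1 := by positivity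
  obtain ⟨x₁, ϖ, δ₃, ε₁, εN, hx₁, hϖ, hϖ1, hδ₃, hε₁, hεN, hue⟩ :=
    ueg_rect2V (ε / (2 * (V + 1))) ca ρ V (by positivity) hca hρ
  refine ⟨x₁, ϖ, δ₃, ε₁, εN, hx₁, hϖ, hϖ1, hδ₃, hε₁, hεN, ?_⟩
  intro k'
  obtain ⟨γ, n, d₀, hγ, hγ1, hn, hd₀, hue⟩ := hue k'
  have hu0 : 0 < Real.log 2 := Real.log_pos (by norm_num)
  obtain ⟨N, hN⟩ := exists_nat_ge (2 * (C * (V + 2)) / (ε * Real.log 2))
  refine ⟨γ, n, d₀ + N, hγ, hγ1, hn, by omega, ?_⟩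
  intro J F p σ wa wb vp D R a al d tt qa qb hd hR hS hwR hRJ hTR hH
  obtain ⟨B, hB1, hB2⟩ := hue F p σ wa wb vp D R a al d tt qa qb (by omega) hR hS hwR hRJ hTR hH
  refine ⟨B, hB1, ?_⟩
  intro w q h1 h2 h3 h4 hwq
  obtain ⟨g1, g2, g3⟩ := hB2 w q h1 h2 h3 h4 hwq
  obtain ⟨X, hX⟩ : ∃ X, X = n * d := ⟨_, rfl⟩
  rw [← hX] at g1 g2 g3 ⊢
  have hXd : N ≤ X := by
    have h5 : 1 * d ≤ n * d := Nat.mul_le_mul_right d hn
    rw [hX]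
    omega
  have hXr : (N : ℝ) ≤ X := by exact_mod_cast hXd
  have hb := hN.trans hXr
  rw [div_le_iff₀ (by positivity)] at hb
  have hmul : ε / (2 * (V + 1)) ≤ ε := by
    rw [div_le_iff₀ (by positivity)]
    have : (0 : ℝ) ≤ V := Nat.cast_nonneg _
    nlinarith
  have hX0 : (0 : ℝ) ≤ X := Nat.cast_nonneg _
  refine ⟨g1, g2, fun j hj => ?_, fun hVX => ?_⟩
  · have h5 := g3 j hj
    have h6 : ε / (2 * (V + 1)) * (X * Real.log 2) ≤ ε * (X * Real.log 2) :=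
      mul_le_mul_of_nonneg_right hmul (by positivity)
    constructor
    · refine le_trans ?_ h5.nu
      linarith
    · refine le_trans ?_ h5.pr
      linarith
  · have key := full_of (ε := ε / (2 * (V + 1))) (C := C) (by positivity) hC hR h1 g1 hVX g3
    refine le_trans ?_ key
    have e1 : ((V : ℝ) + 1) * (ε / (2 * (V + 1)) * X * Real.log 2) = ε * X * Real.log 2 / 2 := by
      field_simp
    rw [e1]
    linarith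

end Pool.UEG
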