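import Pool.Agent.H83.UEG.MainW
import Pool.Agent.H83.UEG.Full

/-!
# The local U-step and row FULL on a rectangle in dimension two, hypotheses at one context

`Hw2`: at the window `w`, the times and the slopes of two samples of one line and of one window
are not near. `Ha2`: the velocity of the first coordinate is active at the contexts `(w, q + r)`.
-/

set_option autoImplicit false

namespace Pool.UEG

open Finset Real
open Pool.Agent.H49.Ent Pool.Agent.H32.Dense Pool.STK Pool.KA Pool.KSAT Pool.K2S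
open Pool.S6U Pool.OCG

variable {J : ℕ}

/-- The hypotheses on events at the window `w`. -/
structure Hw2 (F : Fam 2 J) (p : F.Ω → ℝ) (vp : ℕ → ℕ) (D : ℕ)
    (a : ℕ → F.Ω → ℝ) (al : F.Ω → ℝ) (X k' : ℕ) (x₁ ϖ ε₁ εN : ℝ) (w : ℕ) : Prop where
  tim : ∀ E : F.Ω → Prop, ϖ ≤ Pe p E →
    ∑ i ∈ Finset.range X, nr (Pool.Agent.H49.Ent.cond p E True) (slam F w) (F.wt w) k' i ≤ εN * X
  th : ∀ E : F.Ω → Prop, ϖ ≤ Pe p E →
    Pool.KAF.Pr (dbl (Pool.Agent.H49.Ent.cond p E True) (slam F w))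
      {v | |sl2 (vp w) D (a w) al v.2 - sl2 (vp w) D (a w) al v.1| <
        (2 : ℝ) ^ (-(x₁ * X))} ≤ ε₁

/-- The activity of the velocity at the contexts `(w, q + r)`. -/
def Ha2 (F : Fam 2 J) (p : F.Ω → ℝ) (σ : Fin 2 → Fin 2) (vp : ℕ → ℕ) (a : ℕ → F.Ω → ℝ)
    (X : ℕ) (ϖ κ₀ ca : ℝ) (w q : ℕ) : Prop :=
  ∀ r X' : ℕ, κ₀ * X ≤ X' → r + X' ≤ X → ∀ E : F.Ω → Prop, ϖ ≤ Pe p E →
    ca * X' * Real.log 2 ≤ CH (Pool.Agent.H49.Ent.cond p E True)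
      (Uni.dg X' (fun ω => F.md (cv2 (vp w) (q + r)) (frm2 σ (a w)) ω 0))
      (F.blb w (cv2 (vp w) (q + r)) (frm2 σ (a w)))

/-- **The U-step on a rectangle in dimension two**, hypotheses at one context. -/
theorem ueg_rect2W : ∀ ε ca ρ : ℝ, 0 < ε → 0 < ca → 0 < ρ → ∃ (x₁ ϖ κ₀ ε₁ εN : ℝ),
    0 < x₁ ∧ 0 < ϖ ∧ ϖ ≤ 1 ∧ 0 < κ₀ ∧ 0 < ε₁ ∧ 0 < εN ∧ ∀ k' : ℕ,
    ∃ (γ : ℝ) (n d₀ : ℕ), 0 < γ ∧ γ ≤ 1 ∧ 1 ≤ n ∧ 1 ≤ d₀ ∧
    ∀ {J : ℕ} (F : Fam 2 J) (p : F.Ω → ℝ) (σ : Fin 2 → Fin 2) (wa wb : ℕ) (vp : ℕ → ℕ) (D R : ℕ)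
      (a : ℕ → F.Ω → ℝ) (al : F.Ω → ℝ) (d tt qa qb : ℕ), d₀ ≤ d →
      Rc2 F p σ wa wb vp D a al → Sh2 wa wb vp D R tt (n * d) qa qb γ →
      wb ≤ R → R ≤ J → Det p (F.T1 R) F.T →
      ∃ B : Finset (ℕ × ℕ), (B.card : ℝ) ≤ ρ * ((wb + 1 - wa : ℕ) * (qb - qa : ℕ)) ∧
        ∀ w q, wa ≤ w → w ≤ wb → qa ≤ q → q < qb → (w, q) ∉ B →
          Hw2 F p vp D a al (n * d) k' x₁ ϖ ε₁ εN w →
          Ha2 F p σ vp a (n * d) ϖ κ₀ ca w q →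
          Cc2 F p σ vp D a al (n * d) ε w q := by
  intro ε ca ρ hε hca hρ
  obtain ⟨x₁, ϖ, κ₀, ε₁, εN, hx₁, hϖ, hϖ1, hκ₀, hε₁, hεN, hue⟩ := ueg_rectW ε ca ρ hε hca hρ
  refine ⟨x₁, ϖ, κ₀, ε₁, εN, hx₁, hϖ, hϖ1, hκ₀, hε₁, hεN, ?_⟩
  intro k'
  obtain ⟨γ, n, d₀, hγ, hγ1, hn, hd₀, hue⟩ := hue k'
  refine ⟨γ, n, d₀, hγ, hγ1, hn, hd₀, ?_⟩
  intro J F p σ wa wb vp D R a al d tt qa qb hd hR hS hwR hRJ hTR
  have hp := hR.law
  have h0 := hp.nonneg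
  have hmx : ∀ w v q (b : F.Ω → ℝ) X, Uni.dg (Ω := F.Ω) X (fun ω => (lft F).mx w (cv v 0 q)
      (frm (F := lft F) (sg3 σ) b (fun _ => 0) (fun _ => 0)) ω 0) =
      Uni.dg X (fun ω => F.mx w (cv2 v q) (frm2 σ b) ω 0) := by
    intro w v q b X
    funext ω
    exact congrArg (fun x : ℝ => ⌊(2 : ℝ) ^ X * x⌋) (mx_lft0 (F := F) (σ := σ) (a := b) ω)
  have hmd : ∀ v q (b : F.Ω → ℝ) X, Uni.dg (Ω := F.Ω) X (fun ω => (lft F).md (cv v 0 q)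
      (frm (F := lft F) (sg3 σ) b (fun _ => 0) (fun _ => 0)) ω 0) =
      Uni.dg X (fun ω => F.md (cv2 v q) (frm2 σ b) ω 0) := by
    intro v q b X
    funext ω
    exact congrArg (fun x : ℝ => ⌊(2 : ℝ) ^ X * x⌋)
      (md_lft0 (F := F) (σ := σ) (a := b) (cv v 0 q) (cv2 v q) rfl ω)
  have hnu : ∀ w v q (b : F.Ω → ℝ) X, Uni.dg (Ω := F.Ω) X (tnu (lft F) w (cv v 0 q)
      (frm (F := lft F) (sg3 σ) b (fun _ => 0) (fun _ => 0)) 0 1 (sl (F := lft F) v D b al)) =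
      Uni.dg X (tnu F w (cv2 v q) (frm2 σ b) 0 1 (sl2 v D b al)) := by
    intro w v q b X
    funext ω
    have e : tnu (lft F) w (cv v 0 q)
        (frm (F := lft F) (sg3 σ) b (fun _ => 0) (fun _ => 0)) 0 1 (sl (F := lft F) v D b al) ω =
        tnu F w (cv2 v q) (frm2 σ b) 0 1 (sl2 v D b al) ω := by
      unfold tnu
      rw [mx_lft0, mx_lft1]
      rfl
    exact congrArg (fun x : ℝ => ⌊(2 : ℝ) ^ X * x⌋) e
  have hvd : ∀ w v q (b : F.Ω → ℝ) X, (vd (lft F) 0 1 w (cv v 0 q)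
      (frm (F := lft F) (sg3 σ) b (fun _ => 0) (fun _ => 0)) X : F.Ω → ℤ × (ℤ × ℤ)) =
      vd F 0 1 w (cv2 v q) (frm2 σ b) X := by
    intro w v q b X
    funext ω
    have e1 := mu_lft0 (F := F) (σ := σ) (a := b) (w := w) (fun i => cv v 0 q i + w)
      (fun i => cv2 v q i + w) rfl ω
    have e2 := md_lft0 (F := F) (σ := σ) (a := b) (cv v 0 q) (cv2 v q) rfl ω
    have e3 := md_lft1 (F := F) (σ := σ) (a := b) (cv v 0 q) (cv2 v q) rfl ω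
    exact Prod.ext (congrArg (fun x : ℝ => ⌊(2 : ℝ) ^ X * x⌋) e1)
      (Prod.ext (congrArg (fun x : ℝ => ⌊(2 : ℝ) ^ X * x⌋) e2)
        (congrArg (fun x : ℝ => ⌊(2 : ℝ) ^ X * x⌋) e3))
  obtain ⟨B, hB1, hB2⟩ := hue (lft F) p (sg3 σ) wa wb vp D R a (fun _ => 0) (fun _ => 0) al 0 d tt
    qa qb hR.lft hS.wab hS.qab hd hS.Xt hwR hRJ hTR hS.rate hS.tγ hS.Xγ hS.Dγ hS.Rγ hS.rise
  refine ⟨B, hB1, ?_⟩
  intro w q h1 h2 h3 h4 hwq hH hA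
  have key := hB2 w q h1 h2 h3 h4 hwq
    ⟨fun E hE => by
      refine le_trans (le_of_eq ?_) (hH.tim E hE)
      exact Finset.sum_congr rfl fun i _ => nr_lft _ w k' i,
    fun E hE => by
      refine le_trans (le_of_eq ?_) (hH.th E hE)
      have h4 : dbl (Pool.Agent.H49.Ent.cond p E True) (slam (lft F) w) =
        dbl (Pool.Agent.H49.Ent.cond p E True) (slam F w) := dbl_congr fun ω ω' => slam_lft
      exact congrArg (fun g => Pool.KAF.Pr g {v : F.Ω × F.Ω | |sl2 (vp w) D (a w) al v.2 -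
        sl2 (vp w) D (a w) al v.1| < (2 : ℝ) ^ (-(x₁ * (n * d : ℕ)))}) h4⟩
    (fun r X' hX' hrX E hE => by
      have hc : ∀ ω, 0 ≤ Pool.Agent.H49.Ent.cond p E True ω := cond_nonneg h0 _ _
      refine (hA r X' hX' hrX E hE).trans (le_of_eq ?_)
      rw [← hmd]
      refine CH_congr hc (fun _ _ _ _ h => (Prod.ext_iff.mp h).1)
        (fun _ _ _ _ h => (Prod.ext_iff.mp h).1) ?_ ?_
      · intro ω ω' _ _ e
        exact (blb_lft hR.inj).2 e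
      · intro ω ω' _ _ e
        exact (blb_lft hR.inj).1 e)
  have dc1 : Det p (cdn (lft F) w (cv (vp w) 0 q)
      (frm (F := lft F) (sg3 σ) (a w) (fun _ => 0) (fun _ => 0)) (Uni.dg D al))
      (cdn F w (cv2 (vp w) q) (frm2 σ (a w)) (Uni.dg D al)) := by
    intro ω ω' _ _ e
    have e1 := Prod.ext_iff.mp e
    exact Prod.ext ((blb_lft hR.inj).1 e1.1) e1.2
  have dc2 : Det p (cdn F w (cv2 (vp w) q) (frm2 σ (a w)) (Uni.dg D al))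
      (cdn (lft F) w (cv (vp w) 0 q)
      (frm (F := lft F) (sg3 σ) (a w) (fun _ => 0) (fun _ => 0)) (Uni.dg D al)) := by
    intro ω ω' _ _ e
    have e1 := Prod.ext_iff.mp e
    exact Prod.ext ((blb_lft hR.inj).2 e1.1) e1.2
  constructor
  · refine key.1.trans (le_of_eq ?_)
    rw [← hnu, ← hvd]
    refine CH_congr h0 (fun _ _ _ _ h => (Prod.ext_iff.mp h).1)
      (fun _ _ _ _ h => (Prod.ext_iff.mp h).1) ?_ ?_
    · intro ω ω' x y e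
      have e1 := Prod.ext_iff.mp e
      exact Prod.ext e1.1 (dc1 ω ω' x y e1.2)
    · intro ω ω' x y e
      have e1 := Prod.ext_iff.mp e
      exact Prod.ext e1.1 (dc2 ω ω' x y e1.2)
  · refine key.2.trans (le_of_eq ?_)
    rw [← hnu, ← hmx]
    exact CH_congr h0 (fun _ _ _ _ h => (Prod.ext_iff.mp h).1)
      (fun _ _ _ _ h => (Prod.ext_iff.mp h).1) dc1 dc2

/-- **FULL on a rectangle**, hypotheses at one context and its shifts. -/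
theorem ueg_fullW : ∀ (ε ca ρ : ℝ) (V : ℕ), 0 < ε → 0 < ca → 0 < ρ →
    ∃ (x₁ ϖ κ₀ ε₁ εN : ℝ), 0 < x₁ ∧ 0 < ϖ ∧ ϖ ≤ 1 ∧ 0 < κ₀ ∧ 0 < ε₁ ∧ 0 < εN ∧ ∀ k' : ℕ,
    ∃ (γ : ℝ) (n d₀ : ℕ), 0 < γ ∧ γ ≤ 1 ∧ 1 ≤ n ∧ 1 ≤ d₀ ∧
    ∀ {J : ℕ} (F : Fam 2 J) (p : F.Ω → ℝ) (σ : Fin 2 → Fin 2) (wa wb : ℕ) (vp : ℕ → ℕ) (D R : ℕ)
      (a : ℕ → F.Ω → ℝ) (al : F.Ω → ℝ) (d tt qa qb : ℕ), d₀ ≤ d →
      Rc2 F p σ wa wb vp D a al → Sh2 wa wb vp D R tt (n * d) qa qb γ →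
      wb ≤ R → R ≤ J → Det p (F.T1 R) F.T →
      ∃ B : Finset (ℕ × ℕ), (B.card : ℝ) ≤ ρ * ((wb + 1 - wa : ℕ) * (qb - qa : ℕ)) ∧
        ∀ w q, wa ≤ w → w ≤ wb → qa ≤ q → q < qb → (w, q) ∉ B →
          w + n * d ≤ wb ∧ q + V * (n * d) < qb ∧
          (Hw2 F p vp D a al (n * d) k' x₁ ϖ ε₁ εN w →
            (∀ j ≤ V, Ha2 F p σ vp a (n * d) ϖ κ₀ ca w (q + j * (n * d)) →
              Cc2 F p σ vp D a al (n * d) ε w (q + j * (n * d))) ∧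
            ((∀ j ≤ V, Ha2 F p σ vp a (n * d) ϖ κ₀ ca w (q + j * (n * d))) →
              vp (w + n * d) ≤ vp w + V * (n * d) →
              (2 * (n * d : ℕ) + (vp (w + n * d) - vp w : ℕ)) * Real.log 2 -
                  ε * (n * d : ℕ) * Real.log 2 ≤
                CH p (F.blb (w + n * d) (cv2 (vp (w + n * d)) q) (frm2 σ (a (w + n * d))))
                  (fun ω => (F.blb w (cv2 (vp w) q) (frm2 σ (a w)) ω,
                    (Uni.dg D al ω, F.T ω))))) := by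
  intro ε ca ρ V hε hca hρ
  obtain ⟨C, hC0, hC⟩ := Pool.PC.ue_box 4 (by norm_num)
  have hV : (0 : ℝ) < V + 1 := by positivity
  obtain ⟨x₁, ϖ, κ₀, ε₁, εN, hx₁, hϖ, hϖ1, hκ₀, hε₁, hεN, hue⟩ :=
    ueg_rect2W (ε / (2 * (V + 1))) ca (ρ / (2 * (V + 1))) (by positivity) hca (by positivity)
  refine ⟨x₁, ϖ, κ₀, ε₁, εN, hx₁, hϖ, hϖ1, hκ₀, hε₁, hεN, ?_⟩
  intro k'
  obtain ⟨γ, n, d₀, hγ, hγ1, hn, hd₀, hue⟩ := hue k'
  have hu0 : 0 < Real.log 2 := Real.log_pos (by norm_num)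
  obtain ⟨γ', hγ'⟩ : ∃ γ', γ' = min γ (ρ / (2 * (V + 1))) := ⟨_, rfl⟩
  have hγ'0 : 0 < γ' := by rw [hγ']; exact lt_min hγ (by positivity)
  have hγ'γ : γ' ≤ γ := by rw [hγ']; exact min_le_left _ _
  have hγ'ρ : γ' * (V + 1) ≤ ρ / 2 := by
    have h1 : γ' ≤ ρ / (2 * (V + 1)) := by rw [hγ']; exact min_le_right _ _
    rw [le_div_iff₀ (by positivity)] at h1
    linarith
  obtain ⟨N, hN⟩ := exists_nat_ge (2 * (C * (V + 2)) / (ε * Real.log 2))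
  refine ⟨γ', n, d₀ + N, hγ'0, hγ'γ.trans hγ1, hn, by omega, ?_⟩
  intro J F p σ wa wb vp D R a al d tt qa qb hd hR hS hwR hRJ hTR
  have hW0 : (0 : ℝ) ≤ (wb + 1 - wa : ℕ) := Nat.cast_nonneg _
  have hQ0 : (0 : ℝ) ≤ (qb - qa : ℕ) := Nat.cast_nonneg _
  have hWγ := mul_le_mul_of_nonneg_right hγ'γ hW0
  have hQγ := mul_le_mul_of_nonneg_right hγ'γ hQ0
  obtain ⟨B, hB1, hB2⟩ := hue F p σ wa wb vp D R a al d tt qa qb (by omega) hR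
    ⟨hS.wab, hS.qab, hS.Xt, hS.rate, hS.tγ.trans hWγ, hS.Xγ.trans hQγ, hS.Dγ.trans hQγ,
      hS.Rγ.trans hQγ, hS.rise⟩ hwR hRJ hTR
  obtain ⟨B', hB'1, hB'2⟩ := shift_bad wa wb qa qb (n * d) V B
  refine ⟨B', ?_, ?_⟩
  · have h1 : (B'.card : ℝ) ≤ (V + 1) * B.card + (wb + 1 - wa : ℕ) * (V * (n * d : ℕ)) +
        (n * d : ℕ) * (qb - qa : ℕ) := by exact_mod_cast hB'1
    obtain ⟨W, hW⟩ : ∃ W : ℝ, W = (wb + 1 - wa : ℕ) := ⟨_, rfl⟩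
    obtain ⟨Q, hQ⟩ : ∃ Q : ℝ, Q = (qb - qa : ℕ) := ⟨_, rfl⟩
    obtain ⟨Xr, hXr⟩ : ∃ Xr : ℝ, Xr = (n * d : ℕ) := ⟨_, rfl⟩
    have hXQ : Xr ≤ γ' * Q := by rw [hXr, hQ]; exact hS.Xγ
    have hXW : Xr ≤ γ' * W := by
      have h2 : Xr ≤ tt := by
        rw [hXr]
        have := hS.Xt
        exact_mod_cast this
      rw [hW]
      exact h2.trans hS.tγ
    rw [← hW, ← hQ, ← hXr] at h1
    rw [← hW, ← hQ] at hB1 ⊢
    rw [← hW] at hW0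
    rw [← hQ] at hQ0
    have h3 : ((V : ℝ) + 1) * B.card ≤ ρ / 2 * (W * Q) := by
      have h4 := mul_le_mul_of_nonneg_left hB1 hV.le
      have e : ((V : ℝ) + 1) * (ρ / (2 * (V + 1)) * (W * Q)) = ρ / 2 * (W * Q) := by
        field_simp
      linarith
    have h4 : W * (V * Xr) ≤ V * γ' * (W * Q) := by
      have h5 : (V : ℝ) * W * Xr ≤ V * W * (γ' * Q) :=
        mul_le_mul_of_nonneg_left hXQ (mul_nonneg (Nat.cast_nonneg _) hW0)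
      linarith
    have h5 : Xr * Q ≤ γ' * (W * Q) := by
      have h6 := mul_le_mul_of_nonneg_right hXW hQ0
      linarith
    have h6 : γ' * (V + 1) * (W * Q) ≤ ρ / 2 * (W * Q) :=
      mul_le_mul_of_nonneg_right hγ'ρ (mul_nonneg hW0 hQ0)
    linarith
  intro w q h1 h2 h3 h4 hwq
  obtain ⟨g1, g2, g3⟩ := hB'2 w q h1 h2 h3 h4 hwq
  refine ⟨g1, g2, fun hH => ?_⟩
  obtain ⟨X, hX⟩ : ∃ X, X = n * d := ⟨_, rfl⟩
  have hXd : N ≤ X := by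
    have h5 : 1 * d ≤ n * d := Nat.mul_le_mul_right d hn
    rw [hX]
    omega
  have hXr : (N : ℝ) ≤ X := by exact_mod_cast hXd
  have hb := hN.trans hXr
  rw [div_le_iff₀ (by positivity)] at hb
  have hmul : ε / (2 * (V + 1)) ≤ ε := by
    rw [div_le_iff₀ (by positivity)]
    have : (0 : ℝ) ≤ V := Nat.cast_nonneg _
    nlinarith
  have hX0 : (0 : ℝ) ≤ X := Nat.cast_nonneg _
  have hcc : ∀ j ≤ V, Ha2 F p σ vp a (n * d) ϖ κ₀ ca w (q + j * (n * d)) →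
      Cc2 F p σ vp D a al (n * d) (ε / (2 * (V + 1))) w (q + j * (n * d)) := by
    intro j hj hA
    have hjX : j * (n * d) ≤ V * (n * d) := Nat.mul_le_mul_right _ hj
    exact hB2 w (q + j * (n * d)) h1 h2 (by omega) (by omega) (g3 j hj) hH hA
  rw [← hX] at hcc g1 ⊢
  refine ⟨fun j hj hA => ?_, fun hA hVX => ?_⟩
  · have h5 := hcc j hj hA
    have h6 : ε / (2 * (V + 1)) * (X * Real.log 2) ≤ ε * (X * Real.log 2) :=
      mul_le_mul_of_nonneg_right hmul (by positivity)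
    constructor
    · refine le_trans ?_ h5.nu
      linarith
    · refine le_trans ?_ h5.pr
      linarith
  · have key := full_of (ε := ε / (2 * (V + 1))) (C := C) (by positivity) hC hR h1 g1 hVX
      (fun j hj => hcc j hj (hA j hj))
    refine le_trans ?_ key
    have e1 : ((V : ℝ) + 1) * (ε / (2 * (V + 1)) * X * Real.log 2) = ε * X * Real.log 2 / 2 := by
      field_simp
    rw [e1]
    linarith

end Pool.UEG
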