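import Pool.Agent.H83.UEG.Ue
import Pool.Agent.H10.S6U.Main

/-!
# The local U-step on a rectangle, general time laws

The additional telescope: the time (known to `R` digits) and the blocks of the line in one window.
-/

set_option autoImplicit false

namespace Pool.UEG

open Finset Real
open Pool.Agent.H49.Ent Pool.Agent.H32.Dense Pool.STK Pool.KA Pool.KSAT Pool.K2S
open Pool.S6U Pool.OCG

variable {J : ℕ} {F : Fam 3 J} {p : F.Ω → ℝ} {σ : Fin 3 → Fin 3} {wa wb : ℕ} {vp : ℕ → ℕ}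
  {D : ℕ} {a : ℕ → F.Ω → ℝ} {s t al : F.Ω → ℝ} {κ X : ℕ}

/-- The entropy of the time of resolution `R`, given the window. -/
theorem CH_T {m : ℕ} {F : Fam m J} {p : F.Ω → ℝ} (hp : IsLaw p) {w R : ℕ} (hw : w ≤ R)
    (hR : R ≤ J) (hT : Det p (F.T1 R) F.T) :
    CH p F.T (F.T1 w) ≤ (R - w : ℕ) * Real.log 2 := by
  have h1 : CH p F.T (F.T1 w) ≤ CH p (F.T1 R) (F.T1 w) :=
    CH_mono_left hp.nonneg fun ω ω' a b h => hT ω ω' a b (Prod.ext_iff.mp h).1
  refine h1.trans ?_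
  refine (CH_le_card hp.nonneg hp.sum_one (F.T1 R) _
    (fun v => Finset.Ico (v * 2 ^ (R - w)) ((v + 1) * 2 ^ (R - w))) ?_).trans ?_
  · intro ω _
    have e1 : F.T1 w ω = F.T1 R ω / 2 ^ (R - w) := by
      unfold Fam.T1
      rw [Nat.div_div_eq_div_mul, ← pow_add]
      congr 2
      omega
    rw [Finset.mem_Ico, e1]
    constructor
    · exact Nat.div_mul_le_self _ _
    · rw [← Nat.div_lt_iff_lt_mul (by positivity)]
      exact Nat.lt_succ_self _
  · refine le_of_eq ?_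
    have : ∀ v : ℕ, (Finset.Ico (v * 2 ^ (R - w)) ((v + 1) * 2 ^ (R - w))).card =
        2 ^ (R - w) := by
      intro v
      rw [Nat.card_Ico, add_mul, one_mul, Nat.add_sub_cancel_left]
    simp only [this]
    push_cast
    rw [Ex_const hp.sum_one, Real.log_pow]

section defs

variable (F p σ vp a s t κ X)

/-- The time and the line at the context `(w, q)`. -/
noncomputable def TT (w q : ℕ) : ℝ := tT F p w (cv (vp w) κ q) (frm σ (a w) s t) X

end defs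

theorem TT_nonneg (hp : IsLaw p) (w q : ℕ) : 0 ≤ TT F p σ vp a s t κ X w q :=
  dp_nonneg hp.nonneg _ _ _

/-- **(T)** on a separated set of velocity scales. -/
theorem sumT {w R : ℕ} (hp : IsLaw p) (hwR : w ≤ R) (hR : R ≤ J) (hT : Det p (F.T1 R) F.T)
    (S : Finset ℕ) (hne : S.Nonempty) (hsep : ∀ x ∈ S, ∀ y ∈ S, x < y → x + X ≤ y) :
    ∑ q ∈ S, TT F p σ vp a s t κ X w q ≤ (R - w : ℕ) * Real.log 2 + 0 * S.card := by
  obtain ⟨q, g1, g2, g3⟩ := H23.enum_asc X S hne hsep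
  rw [← g3 (fun q => TT F p σ vp a s t κ X w q)]
  have key := tele hp S.card (fun _ => F.T)
    (fun j => F.lbr w (cv (vp w) κ (q j)) (frm σ (a w) s t) X)
    (fun j => F.blb w (cv (vp w) κ (q j)) (frm σ (a w) s t))
    (c₁ := 0) (c₂ := 0) le_rfl le_rfl
    (fun j hj => by
      refine (CH_eq_zero hp.nonneg ?_).le
      intro ω ω' _ _ e
      have e2 : F.lbr w (cv (vp w) κ 0) (frm σ (a w) s t) (q (j + 1)) ω =
          F.lbr w (cv (vp w) κ 0) (frm σ (a w) s t) (q (j + 1)) ω' := by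
        unfold Fam.lbr
        rw [cv_add, Nat.zero_add]
        exact e
      have e3 := lbr_mono (r := q j + X) (g2 j hj) e2
      have e4 := lbr_mono (r := q j) (by omega) e3
      unfold Fam.lbr at e3 e4 ⊢
      rw [cv_add, Nat.zero_add] at e3 e4
      refine Prod.ext ?_ e4
      simp only
      rw [cv_add]
      exact e3)
    (fun j _ => by
      refine (CH_eq_zero hp.nonneg ?_).le
      intro ω ω' _ _ e
      exact (Prod.ext_iff.mp e).1)
  have k2 : CH p F.T (F.blb w (cv (vp w) κ (q 0)) (frm σ (a w) s t)) ≤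
      (R - w : ℕ) * Real.log 2 := by
    refine (CH_mono_cond hp.nonneg ?_).trans (CH_T hp hwR hR hT)
    intro ω ω' _ _ e
    exact (Box.mlb_ext e).1
  refine key.trans ?_
  linarith only [k2]

/-- **(T)** on the rectangle. -/
theorem totT {R : ℕ} (hp : IsLaw p) (hwR : wb ≤ R) (hR : R ≤ J) (hT : Det p (F.T1 R) F.T)
    (hX : 0 < X) (Q : Finset ℕ) :
    ∑ w ∈ Finset.Icc wa wb, ∑ q ∈ Q, TT F p σ vp a s t κ X w q ≤
      (Finset.Icc wa wb).card * (X * ((R - wa : ℕ) * Real.log 2)) := by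
  have hl2 : 0 ≤ Real.log 2 := Real.log_nonneg (by norm_num)
  have key : ∀ w ∈ Finset.Icc wa wb, ∑ q ∈ Q, TT F p σ vp a s t κ X w q ≤
      X * ((R - wa : ℕ) * Real.log 2) := by
    intro w hw
    obtain ⟨h1, h2⟩ := Finset.mem_Icc.1 hw
    have k1 := H23.sum_class (fun q => TT F p σ vp a s t κ X w q) Q X hX
      (B := (R - w : ℕ) * Real.log 2) (C := 0) (by positivity) (by
        intro S' _ hne hsep
        exact sumT hp (h2.trans hwR) hR hT S' hne hsep)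
    refine k1.trans ?_
    rw [zero_mul, add_zero]
    refine mul_le_mul_of_nonneg_left ?_ (Nat.cast_nonneg _)
    have k3 : ((R - w : ℕ) : ℝ) ≤ (R - wa : ℕ) := by
      have : R - w ≤ R - wa := by omega
      exact_mod_cast this
    exact mul_le_mul_of_nonneg_right k3 hl2
  refine (Finset.sum_le_sum key).trans ?_
  rw [Finset.sum_const, nsmul_eq_mul]

/-- The contexts in which the dependence of the time is large. -/
theorem card_badT {R : ℕ} (hp : IsLaw p) (hwR : wb ≤ R) (hR : R ≤ J) (hT : Det p (F.T1 R) F.T)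
    (hX : 0 < X) {δ : ℝ} (Q : Finset ℕ) (B : Finset (ℕ × ℕ))
    (hB : B ⊆ Finset.Icc wa wb ×ˢ Q)
    (hbad : ∀ x ∈ B, ¬ TT F p σ vp a s t κ X x.1 x.2 ≤ δ * X) :
    B.card * (δ * X) ≤ (Finset.Icc wa wb).card * (X * ((R - wa : ℕ) * Real.log 2)) := by
  classical
  have a3 := totT (σ := σ) (vp := vp) (a := a) (s := s) (t := t) (κ := κ) (wa := wa) hp hwR hR
    hT hX Q
  rw [← Finset.sum_product'] at a3
  have b1 : ∑ x ∈ B, TT F p σ vp a s t κ X x.1 x.2 ≤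
      ∑ x ∈ Finset.Icc wa wb ×ˢ Q, TT F p σ vp a s t κ X x.1 x.2 :=
    Finset.sum_le_sum_of_subset_of_nonneg hB fun x _ _ => TT_nonneg hp x.1 x.2
  have b2 : (B.card : ℝ) * (δ * X) ≤ ∑ x ∈ B, TT F p σ vp a s t κ X x.1 x.2 := by
    rw [← nsmul_eq_mul, ← Finset.sum_const]
    exact Finset.sum_le_sum fun x hx => (not_le.1 (hbad x hx)).le
  linarith only [a3, b1, b2]

/-- **The U-step on a rectangle, general time laws.** -/
theorem ueg_rect : ∀ ε ca ρ : ℝ, 0 < ε → 0 < ca → 0 < ρ → ∃ (x₁ ϖ δ₃ ε₁ εN : ℝ),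
    0 < x₁ ∧ 0 < ϖ ∧ ϖ ≤ 1 ∧ 0 < δ₃ ∧ 0 < ε₁ ∧ 0 < εN ∧ ∀ k' : ℕ,
    ∃ (γ : ℝ) (n d₀ : ℕ), 0 < γ ∧ γ ≤ 1 ∧ 1 ≤ n ∧ 1 ≤ d₀ ∧
    ∀ {J : ℕ} (F : Fam 3 J) (p : F.Ω → ℝ) (σ : Fin 3 → Fin 3) (wa wb : ℕ) (vp : ℕ → ℕ) (D R : ℕ)
      (a : ℕ → F.Ω → ℝ) (s t al : F.Ω → ℝ) (κ d tt qa qb : ℕ),
      Rc F p σ wa wb vp D a s t al → wa ≤ wb → qa ≤ qb → d₀ ≤ d → n * d ≤ tt →
      wb ≤ R → R ≤ J → Det p (F.T1 R) F.T →
      (∀ w w', wa ≤ w → w + tt ≤ w' → w' ≤ wb → vp w + n * d ≤ vp w') →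
      (tt : ℝ) ≤ γ * (wb + 1 - wa : ℕ) → ((n * d : ℕ) : ℝ) ≤ γ * (qb - qa : ℕ) →
      ((D - vp wa : ℕ) : ℝ) ≤ γ * (qb - qa : ℕ) → ((R - wa : ℕ) : ℝ) ≤ γ * (qb - qa : ℕ) →
      wb + vp wb ≤ wa + vp wa + (qb - qa) →
      (∀ w, wa ≤ w → w ≤ wb → ∀ E : F.Ω → Prop, ϖ ≤ Pe p E →
        ∑ i ∈ Finset.range (n * d), nr (Pool.Agent.H49.Ent.cond p E True) (slam F w) (F.wt w)
          k' i ≤ εN * (n * d : ℕ) ∧
        Pool.KAF.Pr (dbl (Pool.Agent.H49.Ent.cond p E True) (slam F w))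
          {v | |sl (vp w) D (a w) al v.2 - sl (vp w) D (a w) al v.1| <
            (2 : ℝ) ^ (-(x₁ * (n * d : ℕ)))} ≤ ε₁) →
      (∀ w q X', wa ≤ w → w ≤ wb → qa ≤ q → q + X' ≤ qb + n * d → 0 < X' → X' ≤ n * d → d ∣ X' →
        ∀ E : F.Ω → Prop, ϖ ≤ Pe p E →
        X' * Real.log 2 - δ₃ * (n * d : ℕ) ≤ CH (Pool.Agent.H49.Ent.cond p E True)
          (Uni.dg X' (fun ω => F.mx w (cv (vp w) κ q) (frm σ (a w) s t) ω 0))
          (fun ω => (F.blb w (cv (vp w) κ q) (frm σ (a w) s t) ω, F.T ω)) ∧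
        ca * X' * Real.log 2 ≤ CH (Pool.Agent.H49.Ent.cond p E True)
          (Uni.dg X' (fun ω => F.md (cv (vp w) κ q) (frm σ (a w) s t) ω 0))
          (F.blb w (cv (vp w) κ q) (frm σ (a w) s t))) →
      ∃ B : Finset (ℕ × ℕ), (B.card : ℝ) ≤ ρ * ((wb + 1 - wa : ℕ) * (qb - qa : ℕ)) ∧
        ∀ w q, wa ≤ w → w ≤ wb → qa ≤ q → q < qb → (w, q) ∉ B →
          (1 - ε) * (n * d : ℕ) * Real.log 2 ≤
            CH p (Uni.dg (n * d) (tnu F w (cv (vp w) κ q) (frm σ (a w) s t) 0 1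
              (sl (vp w) D (a w) al)))
              (fun ω => (vd F 0 1 w (cv (vp w) κ q) (frm σ (a w) s t) (n * d) ω,
                cdn F w (cv (vp w) κ q) (frm σ (a w) s t) (Uni.dg D al) ω)) ∧
          (2 - ε) * (n * d : ℕ) * Real.log 2 ≤
            CH p (fun ω => (Uni.dg (n * d) (tnu F w (cv (vp w) κ q) (frm σ (a w) s t) 0 1
                (sl (vp w) D (a w) al)) ω,
              Uni.dg (n * d) (fun ω => F.mx w (cv (vp w) κ q) (frm σ (a w) s t) ω 0) ω))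
              (cdn F w (cv (vp w) κ q) (frm σ (a w) s t) (Uni.dg D al)) := by
  classical
  intro ε ca ρ hε hca hρ
  obtain ⟨x₁, ϖ, δ₃, ε₁, εN, hx₁, hϖ, hϖ1, hδ₃, hε₁, hεN, hue⟩ := ueg_pair ε ca hε hca
  refine ⟨x₁, ϖ, δ₃, ε₁, εN, hx₁, hϖ, hϖ1, hδ₃, hε₁, hεN, ?_⟩
  intro k'
  obtain ⟨δ, n, d₀, hδ, hn, hd₀, hue⟩ := hue k'
  obtain ⟨u, hu⟩ : ∃ u, u = Real.log 2 := ⟨_, rfl⟩
  have hu0 : 0 < u := by rw [hu]; exact Real.log_pos (by norm_num)
  have hn0 : (1 : ℝ) ≤ n := by exact_mod_cast hn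
  obtain ⟨γ, hγ⟩ : ∃ γ, γ = min 1 (ρ * δ / (56 * (n * u))) := ⟨_, rfl⟩
  have hγ0 : 0 < γ := by rw [hγ]; exact lt_min one_pos (by positivity)
  have hγ1 : γ ≤ 1 := by rw [hγ]; exact min_le_left _ _
  have hγ3 : 56 * (n * u) * γ ≤ ρ * δ := by
    have h1 : γ ≤ ρ * δ / (56 * (n * u)) := by rw [hγ]; exact min_le_right _ _
    rw [le_div_iff₀ (by positivity)] at h1
    linarith only [h1]
  have hγ2 : 28 * (n * u) * γ ≤ ρ / 2 * δ := by linarith only [hγ3]
  have hl5 : 0 ≤ Real.log 5 := Real.log_nonneg (by norm_num)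
  have hl7 : 0 ≤ Real.log 7 := Real.log_nonneg (by norm_num)
  have hl15 : 0 ≤ Real.log 15 := Real.log_nonneg (by norm_num)
  have hl70 : 0 ≤ Real.log 70 := Real.log_nonneg (by norm_num)
  obtain ⟨N₁, hN₁⟩ := exists_nat_ge ((Real.log 70 + Real.log 7 + Real.log 15) / u)
  obtain ⟨N₂, hN₂⟩ := exists_nat_ge (2 * n * (4 * cst + 2 * Real.log 5) / (ρ / 2 * δ))
  refine ⟨γ, n, d₀ + N₁ + N₂, hγ0, hγ1, hn, by omega, ?_⟩
  intro J F p σ wa wb vp D R a s t al κ d tt qa qb hR hw hq hd hX hwR hRJ hTR htt htγ hXγ hDγ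
    hRγ hrise hT hE
  obtain ⟨X, hXe⟩ : ∃ X, X = n * d := ⟨_, rfl⟩
  rw [← hXe] at hX htt hXγ hT hE ⊢
  have hdX : d ≤ X := by
    rw [hXe]
    calc d = 1 * d := (one_mul d).symm
      _ ≤ n * d := Nat.mul_le_mul_right d hn
  have hd1 : 1 ≤ d := by omega
  have hX0 : 0 < X := by omega
  have hX0r : (0 : ℝ) < X := by exact_mod_cast hX0
  have hp := hR.law
  -- bad contexts
  obtain ⟨B₀, hB₀⟩ : ∃ B₀, B₀ = (Finset.Icc wa wb ×ˢ Finset.Ico qa (qb + X)).filter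
    (fun x => ¬ (TA F p σ vp D a s t al κ X x.1 x.2 ≤ δ * X ∧
      TB F p σ vp D a s t al κ X x.1 x.2 ≤ δ * X ∧
      TM F p σ vp D a s t al κ X x.1 x.2 ≤ δ * X)) := ⟨_, rfl⟩
  obtain ⟨B₁, hB₁⟩ : ∃ B₁, B₁ = (Finset.Icc wa wb ×ˢ Finset.Ico qa (qb + X)).filter
    (fun x => ¬ TT F p σ vp a s t κ X x.1 x.2 ≤ δ * X) := ⟨_, rfl⟩
  have hcb := card_bad (κ := κ) (δ := δ) hR hX0 hX htt hδ.le B₀ (by
    rw [hB₀]; exact Finset.filter_subset _ _) (fun x hx => by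
      rw [hB₀] at hx; exact (Finset.mem_filter.1 hx).2)
  have hcb1 := card_badT (σ := σ) (vp := vp) (a := a) (s := s) (t := t) (κ := κ) (δ := δ)
    (wa := wa) hp hwR hRJ hTR hX0 (Finset.Ico qa (qb + X)) B₁ (by
    rw [hB₁]; exact Finset.filter_subset _ _) (fun x hx => by
      rw [hB₁] at hx; exact (Finset.mem_filter.1 hx).2)
  obtain ⟨B, hB⟩ : ∃ B, B = (Finset.Icc wa wb ×ˢ Finset.Ico qa qb).filter
    (fun x => ∃ k < n, (x.1, x.2 + d * k) ∈ B₀ ∪ B₁) := ⟨_, rfl⟩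
  have hBcard : (B.card : ℝ) ≤ n * (B₀.card + B₁.card) := by
    have h1 : B ⊆ (Finset.range n).biUnion fun k =>
        (Finset.Icc wa wb ×ˢ Finset.Ico qa qb).filter
          (fun x => (x.1, x.2 + d * k) ∈ B₀ ∪ B₁) := by
      intro x hx
      rw [hB, Finset.mem_filter] at hx
      obtain ⟨h1, k, hk, h2⟩ := hx
      rw [Finset.mem_biUnion]
      exact ⟨k, Finset.mem_range.2 hk, Finset.mem_filter.2 ⟨h1, h2⟩⟩
    have h2 : B.card ≤ n * (B₀ ∪ B₁).card := by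
      refine (Finset.card_le_card h1).trans (Finset.card_biUnion_le.trans ?_)
      refine (Finset.sum_le_card_nsmul _ _ (B₀ ∪ B₁).card ?_).trans (le_of_eq ?_)
      · intro k _
        refine Finset.card_le_card_of_injOn (fun x => (x.1, x.2 + d * k)) ?_ ?_
        · intro x hx
          exact (Finset.mem_filter.1 (Finset.mem_coe.1 hx)).2
        · intro x _ y _ hxy
          have h3 := Prod.ext_iff.mp hxy
          have h4 : x.1 = y.1 := h3.1
          have h5 : x.2 + d * k = y.2 + d * k := h3.2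
          exact Prod.ext h4 (by omega)
      · rw [Finset.card_range, smul_eq_mul]
    have h3 : B.card ≤ n * (B₀.card + B₁.card) :=
      h2.trans (Nat.mul_le_mul_left n (Finset.card_union_le _ _))
    exact_mod_cast h3
  have hcW : (Finset.Icc wa wb).card = wb + 1 - wa := Nat.card_Icc _ _
  have hcQ : (Finset.Ico qa (qb + X)).card = qb + X - qa := Nat.card_Ico _ _
  have hcU : (Finset.Ico (wa + vp wa + qa) (wb + vp wb + (qb + X))).card =
      wb + vp wb + (qb + X) - (wa + vp wa + qa) := Nat.card_Ico _ _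
  rw [hcW, hcQ, hcU] at hcb
  rw [hcW] at hcb1
  have hN1 : Real.log 70 + Real.log 7 + Real.log 15 ≤ u * X := by
    have h1 : ((N₁ : ℕ) : ℝ) ≤ X := by
      have : N₁ ≤ X := by omega
      exact_mod_cast this
    have h2 := hN₁.trans h1
    rw [div_le_iff₀ hu0] at h2
    linarith only [h2]
  have hN2 : 2 * n * (4 * cst + 2 * Real.log 5) ≤ ρ / 2 * δ * X := by
    have h1 : ((N₂ : ℕ) : ℝ) ≤ X := by
      have : N₂ ≤ X := by omega
      exact_mod_cast this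
    have h2 := hN₂.trans h1
    rw [div_le_iff₀ (by positivity)] at h2
    linarith only [h2]
  have hfin := arith (n := n) (u := u) (X := X) (tt := tt) (l70 := Real.log 70)
    (l7 := Real.log 7) (l5 := Real.log 5) (l15 := Real.log 15) (C := cst) (γ := γ) (δ := δ)
    (ρ := ρ / 2) (bad := B₀.card) (nW := (wb + 1 - wa : ℕ)) (nQ' := (qb - qa : ℕ))
    (nQ := (qb + X - qa : ℕ)) (nU := (wb + vp wb + (qb + X) - (wa + vp wa + qa) : ℕ))
    (Dv := (D - vp wa : ℕ)) hn0 hu0 hX0r (Nat.cast_nonneg _) (Nat.cast_nonneg _) hγ0 hγ1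
    cst_nonneg hl5 htγ (by exact_mod_cast hX) hXγ
    (by
      have : qb + X - qa = (qb - qa) + X := by omega
      rw [this]
      push_cast
      ring)
    (by
      have : wb + vp wb + (qb + X) - (wa + vp wa + qa) ≤ (qb - qa) + (qb + X - qa) := by omega
      exact_mod_cast this)
    (Nat.cast_nonneg _) hDγ (by linarith only [hl7, hl15, hN1]) (by linarith only [hl15, hl70, hN1]) (by linarith only [hl7, hl70, hN1]) hl70 hl7 hδ hγ2 hN2
    (by rw [hu]; exact hcb)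
  have hfin1 : (n : ℝ) * B₁.card ≤ ρ / 2 * ((wb + 1 - wa : ℕ) * (qb - qa : ℕ)) := by
    obtain ⟨W, hW⟩ : ∃ W : ℝ, W = (wb + 1 - wa : ℕ) := ⟨_, rfl⟩
    obtain ⟨Q, hQ⟩ : ∃ Q : ℝ, Q = (qb - qa : ℕ) := ⟨_, rfl⟩
    obtain ⟨Rr, hRr⟩ : ∃ Rr : ℝ, Rr = (R - wa : ℕ) := ⟨_, rfl⟩
    obtain ⟨b, hb⟩ : ∃ b : ℝ, b = B₁.card := ⟨_, rfl⟩
    have hW0 : 0 ≤ W := by rw [hW]; exact Nat.cast_nonneg _
    have hQ0 : 0 ≤ Q := by rw [hQ]; exact Nat.cast_nonneg _
    rw [← hW, ← hRr, ← hu, ← hb] at hcb1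
    rw [← hW, ← hQ, ← hb]
    rw [← hRr, ← hQ] at hRγ
    have h1 : W * (X * (Rr * u)) ≤ W * (X * (γ * Q * u)) := by
      refine mul_le_mul_of_nonneg_left (mul_le_mul_of_nonneg_left ?_ hX0r.le) hW0
      exact mul_le_mul_of_nonneg_right hRγ hu0.le
    have h2 : n * b * (δ * X) ≤ ρ / 2 * (W * Q) * (δ * X) := by
      have h3 : (n : ℝ) * (b * (δ * X)) ≤ n * (W * (X * (γ * Q * u))) :=
        mul_le_mul_of_nonneg_left (hcb1.trans h1) (by linarith only [hn0])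
      have h4 : 2 * (n * u * γ) ≤ ρ * δ := by
        have h5 : 0 ≤ n * u * γ := by positivity
        linarith only [hγ3, h5]
      have h5 : 0 ≤ W * Q * X := by positivity
      have h6 := mul_le_mul_of_nonneg_right h4 h5
      have e1 : (n : ℝ) * b * (δ * X) = n * (b * (δ * X)) := by ring
      have e2 : (n : ℝ) * (W * (X * (γ * Q * u))) = n * u * γ * (W * Q * X) := by ring
      have e3 : ρ / 2 * (W * Q) * (δ * X) = ρ * δ * (W * Q * X) / 2 := by ring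
      rw [e1, e3]
      rw [e2] at h3
      linarith only [h3, h6]
    exact le_of_mul_le_mul_right h2 (mul_pos hδ hX0r)
  refine ⟨B, ?_, ?_⟩
  · have e : (n : ℝ) * (B₀.card + B₁.card) = n * B₀.card + n * B₁.card := by ring
    rw [e] at hBcard
    linarith only [hBcard, hfin, hfin1]
  intro w q h1 h2 h3 h4 hwq
  have hgood : ∀ k < n, (TA F p σ vp D a s t al κ X w (q + d * k) ≤ δ * X ∧
      TB F p σ vp D a s t al κ X w (q + d * k) ≤ δ * X ∧
      TM F p σ vp D a s t al κ X w (q + d * k) ≤ δ * X) ∧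
      TT F p σ vp a s t κ X w (q + d * k) ≤ δ * X := by
    intro k hk
    have hmem : (w, q + d * k) ∈ Finset.Icc wa wb ×ˢ Finset.Ico qa (qb + X) := by
      refine Finset.mem_product.2 ⟨Finset.mem_Icc.2 ⟨h1, h2⟩, Finset.mem_Ico.2
        ⟨by simp only; omega, ?_⟩⟩
      simp only
      have : d * k < X := by
        rw [hXe, mul_comm n d]
        exact Nat.mul_lt_mul_of_pos_left hk hd1
      omega
    constructor
    · by_contra hcon
      refine hwq ?_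
      rw [hB, Finset.mem_filter]
      refine ⟨Finset.mem_product.2 ⟨Finset.mem_Icc.2 ⟨h1, h2⟩, Finset.mem_Ico.2 ⟨h3, h4⟩⟩,
        k, hk, Finset.mem_union_left _ ?_⟩
      rw [hB₀, Finset.mem_filter]
      exact ⟨hmem, hcon⟩
    · by_contra hcon
      refine hwq ?_
      rw [hB, Finset.mem_filter]
      refine ⟨Finset.mem_product.2 ⟨Finset.mem_Icc.2 ⟨h1, h2⟩, Finset.mem_Ico.2 ⟨h3, h4⟩⟩,
        k, hk, Finset.mem_union_right _ ?_⟩
      rw [hB₁, Finset.mem_filter]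
      exact ⟨hmem, hcon⟩
  have hM : Det p (slam F w) (frm σ (a w) s t) := by
    intro ω ω' hω hω' e
    have e1 := hR.det w h1 h2 ω ω' hω hω' e
    have e2 := Prod.ext_iff.mp e1
    have e3 := Prod.ext_iff.mp e2.2
    unfold frm
    have f1 : a w ω = a w ω' := e2.1
    have f2 : s ω = s ω' := e3.1
    have f3 : t ω = t ω' := e3.2
    rw [f1, f2, f3]
  have hS : Det p (fun ω => (F.blb w (cv (vp w) κ q) (frm σ (a w) s t) ω,
      (Uni.dg D al ω, F.T ω))) (sl (vp w) D (a w) al) := by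
    intro ω ω' _ _ e
    have e1 := Prod.ext_iff.mp e
    exact Rc.det_sl hR.inj e1.1 (Prod.ext_iff.mp e1.2).1
  have key := hue F (Uni.dg D al) p 0 1 w (cv (vp w) κ q) (frm σ (a w) s t)
    (sl (vp w) D (a w) al) d hp (by omega) hM hS
    (fun ω hω => hR.sl4 h1 h2 hω)
    (fun E hPE => by
      rw [← hXe]
      exact ⟨(hT w h1 h2 E hPE).1, (hT w h1 h2 E hPE).2⟩)
    (fun r X' hr hX' hX'0 hrX E hPE => by
      rw [← hXe] at hrX ⊢
      have := hE w (q + r) X' h1 h2 (by omega) (by omega) hX'0 (by omega) hX' E hPE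
      refine ⟨?_, ?_⟩
      · rw [cv_add]
        unfold Fam.lbr
        rw [cv_add]
        exact this.1
      · rw [cv_add]
        unfold Fam.lbr
        rw [cv_add]
        exact this.2)
    (fun r hr hrX => by
      obtain ⟨k, rfl⟩ := hr
      rw [← hXe] at hrX ⊢
      have hk : k < n := by
        rw [hXe, mul_comm n d] at hrX
        exact lt_of_mul_lt_mul_left hrX (Nat.zero_le _)
      obtain ⟨⟨g1, g2, g3⟩, g4⟩ := hgood k hk
      rw [cv_add]
      exact ⟨g4, g1, g2, g3⟩)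
  rw [← hXe] at key
  exact key

end Pool.UEG
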