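import Pool.Agent.H10.S6U.Ue
import Pool.Agent.H83.OCG.OCD
import Pool.Agent.H83.OCG.NC

/-!
# The local U-step at one context, general time laws

As `Pool.Agent.H10.S6U.Pt`, but the law of the time given the line need not be uniform: the
dependence `tT` of the time and of the line in the context is small, and two times of one line and
of one window are not near (`nr`, in the mean over the scales).
-/

set_option autoImplicit false

namespace Pool.UEG

open Finset Real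
open Pool.Agent.H49.Ent Pool.Agent.H32.Dense Pool.STK Pool.KA Pool.KSAT Pool.K2S
open Pool.S6U Pool.OCG

variable {m J : ℕ}

/-- The time and the line. -/
noncomputable def tT (F : Fam m J) (p : F.Ω → ℝ) (w : ℕ) (c : Fin m → ℕ)
    (M : F.Ω → Fin m → Fin m → ℝ) (X : ℕ) : ℝ :=
  dp p F.T (F.lbr w c M X) (F.blb w c M)

section hyp

variable {Γ : Type} {F : Fam m J} {p : F.Ω → ℝ} {i₀ iu : Fin m} {w : ℕ} {c : Fin m → ℕ}
  {M : F.Ω → Fin m → Fin m → ℝ} {S : F.Ω → ℝ} {G : F.Ω → Γ} {X r X' : ℕ}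

/-- **The hypotheses of theorem OC** for the block `(r, r + X']` under the law `q` of a large
event; general time laws. -/
theorem ochypT {q : F.Ω → ℝ} (hq : IsLaw q) (hrX : r + X' ≤ X)
    (hM : Det q (slam F w) M) (hS4 : ∀ ω, 0 < q ω → |S ω| ≤ 4) {k' : ℕ}
    {eT eN eA eB eM eW x₀ ι ι₃ ca ε₀ ε₁ εT : ℝ}
    (hT : tT F q w (fun i => c i + r) M X ≤ eT)
    (hN : ∑ i ∈ Finset.range X', nr q (slam F w) (F.wt w) k' i ≤ eN)
    (hA : tA F q i₀ iu w (fun i => c i + r) M S G X ≤ eA)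
    (hB : tB F q i₀ w (fun i => c i + r) M G X ≤ eB)
    (hm : tM F q w (fun i => c i + r) M G X ≤ eM)
    (hwf : X' * Real.log 2 - eW ≤ CH q (Uni.dg X' (fun ω => F.mx w (fun i => c i + r) M ω i₀))
      (fun ω => (F.lbr w c M r ω, F.T ω)))
    (hact : ca * X' * Real.log 2 ≤
      CH q (Uni.dg X' (fun ω => F.md (fun i => c i + r) M ω i₀)) (F.lbr w c M r))
    (h6 : Pool.KAF.Pr (dbl q (slam F w))
      {v | |S v.2 - S v.1| < (2 : ℝ) ^ (-(x₀ * X'))} ≤ ε₀)
    (i1 : eT + eM ≤ ι * X') (i2 : 3 * eN ≤ εT * X') (i3 : eA + Real.log 45 ≤ ι * X')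
    (i4 : eW + eB + eM + 2 * Real.log 7 ≤ ι₃ * X' * Real.log 2) (i5 : 3 * ε₀ ≤ ε₁) :
    OCHypT q (F.lbr w c M r) (F.lbr w c M X) (fun ω => (G ω, F.T ω)) (rmu F w c M X r i₀)
      (rmd F c M X r i₀) (rmd F c M X r iu) (F.wt w) S (rnu F w c M X r i₀ iu S)
      X' k' x₀ ι ι₃ ca ε₁ εT := by
  have h0 := hq.nonneg
  have dL : Det q (slam F w) (fun ω => (F.lbr w c M X ω, F.lbr w c M r ω)) :=
    fun ω ω' a b h => Prod.ext (lbr_slam hM X ω ω' a b h) (lbr_slam hM r ω ω' a b h)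
  have hsh : ∀ n, F.lbr w (fun i => c i + r) M n = F.lbr w c M (r + n) := by
    intro n
    unfold Fam.lbr
    congr 1
    funext i
    ring
  -- the frame and the line
  have eqM : tM F q w (fun i => c i + r) M G X =
    dp q G (F.lbr w c M (r + X)) (fun ω => (F.lbr w c M r ω, F.T ω)) := by
    unfold tM
    rw [hsh]
    rfl
  have eqT : tT F q w (fun i => c i + r) M X =
    dp q F.T (F.lbr w c M (r + X)) (F.lbr w c M r) := by
    unfold tT
    rw [hsh]
    rfl
  refine ⟨?_, ?_, ?_, ?_, ?_, ?_⟩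
  · rw [MI_eq_dp h0, dp_add h0 G F.T]
    have a1 : dp q F.T (F.lbr w c M X) (F.lbr w c M r) ≤ eT := by
      refine le_trans ?_ (eqT ▸ hT)
      exact dp_mono h0 (fun ω ω' _ _ h => (Prod.ext_iff.mp h).1)
        (fun ω ω' _ _ h => lbr_mono (by omega) (Prod.ext_iff.mp h).1)
    have a2 : dp q G (F.lbr w c M X) (fun ω => (F.T ω, F.lbr w c M r ω)) ≤ eM := by
      refine le_trans ?_ (eqM ▸ hm)
      rw [dp_congr_cond h0 (b' := fun ω => (F.lbr w c M r ω, F.T ω))
        (fun ω ω' _ _ h => Prod.ext (Prod.ext_iff.mp h).2 (Prod.ext_iff.mp h).1)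
        (fun ω ω' _ _ h => Prod.ext (Prod.ext_iff.mp h).2 (Prod.ext_iff.mp h).1)]
      exact dp_mono h0 (fun ω ω' _ _ h => (Prod.ext_iff.mp h).1)
        (fun ω ω' _ _ h => lbr_mono (by omega) (Prod.ext_iff.mp h).1)
    linarith
  · have a1 : ∑ i ∈ Finset.range X', nr q (fun ω => (F.lbr w c M X ω, F.lbr w c M r ω))
        (F.wt w) k' i ≤ ∑ i ∈ Finset.range X', 3 * nr q (slam F w) (F.wt w) k' i :=
      Finset.sum_le_sum fun i _ => nr_coarse hq dL (F.wt w) k' i
    rw [← Finset.mul_sum] at a1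
    linarith
  · have a1 := dp_le_add h0 (V := fun ω => (Uni.dg X' (rmu F w c M X r i₀) ω,
      (Uni.dg X' (rmd F c M X r i₀) ω, Uni.dg X' (rmd F c M X r iu) ω)))
      (CH_rnu (w := w) (c := c) (M := M) (i₀ := i₀) (iu := iu) hq hrX hS4
        (fun ω => (F.lbr w c M r ω, (G ω, F.T ω))))
    have a2 : dp q (Uni.dg X' (tnu F w (fun i => c i + r) M i₀ iu S))
        (fun ω => (Uni.dg X' (rmu F w c M X r i₀) ω,
        (Uni.dg X' (rmd F c M X r i₀) ω, Uni.dg X' (rmd F c M X r iu) ω)))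
        (fun ω => (F.lbr w c M r ω, (G ω, F.T ω))) ≤
        tA F q i₀ iu w (fun i => c i + r) M S G X := by
      unfold tA
      refine dp_mono h0 (fun ω ω' _ _ h => dg_mono (by omega) (Prod.ext_iff.mp h).1) ?_
      intro ω ω' _ _ h
      have h1 := Prod.ext_iff.mp (Prod.ext_iff.mp h).1
      have h2 := Prod.ext_iff.mp h1.2
      rw [dg_rmu hrX, dg_rmd hrX, dg_rmd hrX]
      have g1 : Uni.dg X (fun ω => F.mu w (fun i => c i + r + w) M ω i₀) ω =
        Uni.dg X (fun ω => F.mu w (fun i => c i + r + w) M ω i₀) ω' := h1.1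
      have g2 : Uni.dg X (fun ω => F.md (fun i => c i + r) M ω i₀) ω =
        Uni.dg X (fun ω => F.md (fun i => c i + r) M ω i₀) ω' := h2.1
      have g3 : Uni.dg X (fun ω => F.md (fun i => c i + r) M ω iu) ω =
        Uni.dg X (fun ω => F.md (fun i => c i + r) M ω iu) ω' := h2.2
      exact Prod.ext (dg_mono (by omega) g1)
        (Prod.ext (dg_mono (by omega) g2) (dg_mono (by omega) g3))
    unfold dp at a1
    unfold dp at a2
    linarith
  · rw [dg_rmu hrX, dg_rmd hrX]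
    obtain ⟨yt, hyt⟩ : ∃ yt, yt = Uni.dg X' (fun ω => F.mx w (fun i => c i + r) M ω i₀) :=
      ⟨_, rfl⟩
    obtain ⟨y, hy⟩ : ∃ y, y = Uni.dg X' (fun ω => F.mu w (fun i => c i + r + w) M ω i₀) :=
      ⟨_, rfl⟩
    obtain ⟨om, hom⟩ : ∃ om, om = Uni.dg X' (fun ω => F.md (fun i => c i + r) M ω i₀) :=
      ⟨_, rfl⟩
    obtain ⟨Z, hZ⟩ : ∃ Z, Z = fun ω => (F.lbr w c M r ω, (G ω, F.T ω)) := ⟨_, rfl⟩
    have dZ : Det q Z F.T := fun ω ω' _ _ h => by
      rw [hZ] at h
      exact (Prod.ext_iff.mp (Prod.ext_iff.mp h).2).2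
    rw [← hyt] at hwf
    rw [← hy, ← hom]
    have s1 : CH q y (fun ω => (om ω, Z ω)) ≤ CH q y (fun ω => (om ω, F.lbr w c M r ω)) :=
      CH_mono_cond h0 (fun ω ω' _ _ h => by
        rw [hZ] at h
        exact Prod.ext (Prod.ext_iff.mp h).1 (Prod.ext_iff.mp (Prod.ext_iff.mp h).2).1)
    have s2 : CH q yt (fun ω => (om ω, Z ω)) ≤ CH q y (fun ω => (om ω, Z ω)) + Real.log 7 := by
      have b1 := CH_le_add h0 yt y (fun ω => (om ω, Z ω))
      have b2 : CH q yt (fun ω => (y ω, (om ω, Z ω))) ≤ Real.log 7 := by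
        rw [hyt, hy, hom]
        exact CH_mx' (c := fun i => c i + r) hq i₀ dZ X'
      linarith
    have s3 : dp q yt om Z ≤ eB := by
      rw [dp_symm h0]
      refine le_trans ?_ hB
      unfold tB
      rw [hZ, hom, hyt]
      exact dp_mono h0 (fun ω ω' _ _ h => dg_mono (by omega) (Prod.ext_iff.mp h).1)
        (fun ω ω' _ _ h => dg_mono (by omega) (Prod.ext_iff.mp h).1)
    have s4 : CH q yt Z = CH q yt (fun ω => (G ω, (F.lbr w c M r ω, F.T ω))) := by
      rw [hZ]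
      refine CH_congr h0 (fun _ _ _ _ h => (Prod.ext_iff.mp h).1)
        (fun _ _ _ _ h => (Prod.ext_iff.mp h).1) ?_ ?_ <;>
      · intro ω ω' _ _ h
        simp only [Prod.mk.injEq] at h ⊢
        tauto
    have s5 : dp q yt G (fun ω => (F.lbr w c M r ω, F.T ω)) ≤ eM + Real.log 7 := by
      have b1 := dp_le_add h0 (V := G) (CH_mx (c := fun i => c i + r) (M := M) (w := w) hq i₀
        (Z := fun ω => (F.lbr w c M r ω, F.T ω)) (fun ω ω' _ _ h => (Prod.ext_iff.mp h).2) X')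
      rw [← hyt] at b1
      refine b1.trans ?_
      rw [dp_symm h0]
      have b2 : dp q G (fun ω => (Uni.dg X' (fun ω => F.mu w (fun i => c i + r + w) M ω i₀) ω,
          Uni.dg X' (fun ω => F.md (fun i => c i + r) M ω i₀) ω))
          (fun ω => (F.lbr w c M r ω, F.T ω)) ≤ eM := by
        refine le_trans ?_ hm
        rw [eqM]
        refine dp_mono h0 (fun _ _ _ _ h => (Prod.ext_iff.mp h).1) ?_
        intro ω ω' _ _ h
        have h1 : F.lbr w (fun i => c i + r) M X ω = F.lbr w (fun i => c i + r) M X ω' := by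
          rw [hsh]
          exact (Prod.ext_iff.mp h).1
        have h2 := lbr_dig (r := X') (by omega) h1 i₀
        exact Prod.ext h2.1 h2.2
      linarith
    have e1 : dp q yt om Z = CH q yt Z - CH q yt (fun ω => (om ω, Z ω)) := rfl
    have e2 : dp q yt G (fun ω => (F.lbr w c M r ω, F.T ω)) =
      CH q yt (fun ω => (F.lbr w c M r ω, F.T ω)) -
        CH q yt (fun ω => (G ω, (F.lbr w c M r ω, F.T ω))) := rfl
    have e3 : (1 - ι₃) * X' * Real.log 2 = X' * Real.log 2 - ι₃ * X' * Real.log 2 := by ring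
    rw [e3]
    linarith
  · rw [dg_rmd hrX]
    exact hact
  · have a1 := near_coarse hq dL S (δ := (2 : ℝ) ^ (-(x₀ * X'))) (by positivity)
    have a2 : Pool.KAF.Pr (dbl q (fun ω => (F.lbr w c M X ω, F.lbr w c M r ω)))
        {v | |S v.1 - S v.2| < (2 : ℝ) ^ (-(x₀ * X'))} ≤
        Pool.KAF.Pr (dbl q (fun ω => (F.lbr w c M X ω, F.lbr w c M r ω)))
        {v | |S v.2 - S v.1| < (2 : ℝ) ^ (-(x₀ * X'))} := by
      refine Pr_mono' (fun v => glue_nonneg h0 h0 v) fun v _ hv => ?_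
      have hv' : |S v.1 - S v.2| < (2 : ℝ) ^ (-(x₀ * X')) := hv
      show |S v.2 - S v.1| < (2 : ℝ) ^ (-(x₀ * X'))
      rw [abs_sub_comm]
      exact hv'
    linarith

end hyp

end Pool.UEG
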