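import Pool.Agent.H83.UEG.Two

/-!
# The local U-step on a rectangle in dimension two: shifts

Outside a small proportion of the rectangle the conclusion holds at all contexts `(w, q + j X)`,
`j ≤ V`.
-/

set_option autoImplicit false

namespace Pool.UEG

open Finset Real
open Pool.Agent.H49.Ent Pool.Agent.H32.Dense Pool.STK Pool.KA Pool.KSAT Pool.K2S
open Pool.S6U Pool.OCG

variable {J : ℕ}

/-- The shape of the rectangle. -/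
structure Sh2 (wa wb : ℕ) (vp : ℕ → ℕ) (D R tt X qa qb : ℕ) (γ : ℝ) : Prop where
  wab : wa ≤ wb
  qab : qa ≤ qb
  Xt : X ≤ tt
  rate : ∀ w w', wa ≤ w → w + tt ≤ w' → w' ≤ wb → vp w + X ≤ vp w'
  tγ : (tt : ℝ) ≤ γ * (wb + 1 - wa : ℕ)
  Xγ : (X : ℝ) ≤ γ * (qb - qa : ℕ)
  Dγ : ((D - vp wa : ℕ) : ℝ) ≤ γ * (qb - qa : ℕ)
  Rγ : ((R - wa : ℕ) : ℝ) ≤ γ * (qb - qa : ℕ)
  rise : wb + vp wb ≤ wa + vp wa + (qb - qa)

/-- The hypotheses on the events. -/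
structure Hy2 (F : Fam 2 J) (p : F.Ω → ℝ) (σ : Fin 2 → Fin 2) (wa wb : ℕ) (vp : ℕ → ℕ) (D : ℕ)
    (a : ℕ → F.Ω → ℝ) (al : F.Ω → ℝ) (d X qa qb k' : ℕ) (x₁ ϖ δ₃ ε₁ εN ca : ℝ) : Prop where
  tim : ∀ w, wa ≤ w → w ≤ wb → ∀ E : F.Ω → Prop, ϖ ≤ Pe p E →
    ∑ i ∈ Finset.range X, nr (Pool.Agent.H49.Ent.cond p E True) (slam F w) (F.wt w) k' i ≤ εN * X
  th : ∀ w, wa ≤ w → w ≤ wb → ∀ E : F.Ω → Prop, ϖ ≤ Pe p E →
    Pool.KAF.Pr (dbl (Pool.Agent.H49.Ent.cond p E True) (slam F w))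
      {v | |sl2 (vp w) D (a w) al v.2 - sl2 (vp w) D (a w) al v.1| <
        (2 : ℝ) ^ (-(x₁ * X))} ≤ ε₁
  wf : ∀ w q X', wa ≤ w → w ≤ wb → qa ≤ q → q + X' ≤ qb + X → 0 < X' → X' ≤ X → d ∣ X' →
    ∀ E : F.Ω → Prop, ϖ ≤ Pe p E →
    X' * Real.log 2 - δ₃ * X ≤ CH (Pool.Agent.H49.Ent.cond p E True)
      (Uni.dg X' (fun ω => F.mx w (cv2 (vp w) q) (frm2 σ (a w)) ω 0))
      (fun ω => (F.blb w (cv2 (vp w) q) (frm2 σ (a w)) ω, F.T ω))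
  act : ∀ w q X', wa ≤ w → w ≤ wb → qa ≤ q → q + X' ≤ qb + X → 0 < X' → X' ≤ X → d ∣ X' →
    ∀ E : F.Ω → Prop, ϖ ≤ Pe p E →
    ca * X' * Real.log 2 ≤ CH (Pool.Agent.H49.Ent.cond p E True)
      (Uni.dg X' (fun ω => F.md (cv2 (vp w) q) (frm2 σ (a w)) ω 0))
      (F.blb w (cv2 (vp w) q) (frm2 σ (a w)))

/-- The conclusion at the context `(w, q)`. -/
structure Cc2 (F : Fam 2 J) (p : F.Ω → ℝ) (σ : Fin 2 → Fin 2) (vp : ℕ → ℕ) (D : ℕ)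
    (a : ℕ → F.Ω → ℝ) (al : F.Ω → ℝ) (X : ℕ) (ε : ℝ) (w q : ℕ) : Prop where
  nu : (1 - ε) * X * Real.log 2 ≤
    CH p (Uni.dg X (tnu F w (cv2 (vp w) q) (frm2 σ (a w)) 0 1 (sl2 (vp w) D (a w) al)))
      (fun ω => (vd F 0 1 w (cv2 (vp w) q) (frm2 σ (a w)) X ω,
        cdn F w (cv2 (vp w) q) (frm2 σ (a w)) (Uni.dg D al) ω))
  pr : (2 - ε) * X * Real.log 2 ≤
    CH p (fun ω => (Uni.dg X (tnu F w (cv2 (vp w) q) (frm2 σ (a w)) 0 1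
        (sl2 (vp w) D (a w) al)) ω,
      Uni.dg X (fun ω => F.mx w (cv2 (vp w) q) (frm2 σ (a w)) ω 0) ω))
      (cdn F w (cv2 (vp w) q) (frm2 σ (a w)) (Uni.dg D al))

/-- Contexts with a bad shift, and contexts near the boundary. -/
theorem shift_bad (wa wb qa qb X V : ℕ) (B : Finset (ℕ × ℕ)) :
    ∃ B' : Finset (ℕ × ℕ), B'.card ≤ (V + 1) * B.card + (wb + 1 - wa) * (V * X) +
        X * (qb - qa) ∧
      ∀ w q, wa ≤ w → w ≤ wb → qa ≤ q → q < qb → (w, q) ∉ B' →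
        w + X ≤ wb ∧ q + V * X < qb ∧ ∀ j ≤ V, (w, q + j * X) ∉ B := by
  classical
  obtain ⟨B₁, hB₁⟩ : ∃ B₁, B₁ = (Finset.Icc wa wb ×ˢ Finset.Ico qa qb).filter
    (fun x => ∃ j ≤ V, (x.1, x.2 + j * X) ∈ B) := ⟨_, rfl⟩
  obtain ⟨B₂, hB₂⟩ : ∃ B₂, B₂ = Finset.Icc wa wb ×ˢ Finset.Ico (qb - V * X) qb := ⟨_, rfl⟩
  obtain ⟨B₃, hB₃⟩ : ∃ B₃, B₃ = Finset.Ico (wb + 1 - X) (wb + 1) ×ˢ Finset.Ico qa qb :=
    ⟨_, rfl⟩
  have h1 : B₁.card ≤ (V + 1) * B.card := by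
    have g1 : B₁ ⊆ (Finset.range (V + 1)).biUnion fun j =>
        (Finset.Icc wa wb ×ˢ Finset.Ico qa qb).filter (fun x => (x.1, x.2 + j * X) ∈ B) := by
      intro x hx
      rw [hB₁, Finset.mem_filter] at hx
      obtain ⟨h1, j, hj, h2⟩ := hx
      rw [Finset.mem_biUnion]
      exact ⟨j, Finset.mem_range.2 (by omega), Finset.mem_filter.2 ⟨h1, h2⟩⟩
    refine (Finset.card_le_card g1).trans (Finset.card_biUnion_le.trans ?_)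
    refine (Finset.sum_le_card_nsmul _ _ B.card ?_).trans (le_of_eq ?_)
    · intro k _
      refine Finset.card_le_card_of_injOn (fun x => (x.1, x.2 + k * X)) ?_ ?_
      · intro x hx
        exact (Finset.mem_filter.1 (Finset.mem_coe.1 hx)).2
      · intro x _ y _ hxy
        have h3 := Prod.ext_iff.mp hxy
        have h4 : x.1 = y.1 := h3.1
        have h5 : x.2 + k * X = y.2 + k * X := h3.2
        exact Prod.ext h4 (by omega)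
    · rw [Finset.card_range, smul_eq_mul]
  have h2 : B₂.card ≤ (wb + 1 - wa) * (V * X) := by
    rw [hB₂, Finset.card_product, Nat.card_Icc, Nat.card_Ico]
    exact Nat.mul_le_mul_left _ (by omega)
  have h3 : B₃.card ≤ X * (qb - qa) := by
    rw [hB₃, Finset.card_product, Nat.card_Ico, Nat.card_Ico]
    exact Nat.mul_le_mul_right _ (by omega)
  refine ⟨B₁ ∪ (B₂ ∪ B₃), ?_, ?_⟩
  · have g1 := Finset.card_union_le B₁ (B₂ ∪ B₃)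
    have g2 := Finset.card_union_le B₂ B₃
    omega
  · intro w q e1 e2 e3 e4 hwq
    rw [Finset.mem_union, Finset.mem_union] at hwq
    push Not at hwq
    obtain ⟨n1, n2, n3⟩ := hwq
    refine ⟨?_, ?_, ?_⟩
    · by_contra hcon
      refine n3 ?_
      rw [hB₃]
      exact Finset.mem_product.2 ⟨Finset.mem_Ico.2 (by simp only; omega),
        Finset.mem_Ico.2 ⟨e3, e4⟩⟩
    · by_contra hcon
      refine n2 ?_
      rw [hB₂]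
      exact Finset.mem_product.2 ⟨Finset.mem_Icc.2 ⟨e1, e2⟩,
        Finset.mem_Ico.2 (by simp only; omega)⟩
    · intro j hj hmem
      refine n1 ?_
      rw [hB₁, Finset.mem_filter]
      exact ⟨Finset.mem_product.2 ⟨Finset.mem_Icc.2 ⟨e1, e2⟩, Finset.mem_Ico.2 ⟨e3, e4⟩⟩,
        j, hj, hmem⟩

/-- **The U-step on a rectangle in dimension two, with shifts.** -/
theorem ueg_rect2V : ∀ (ε ca ρ : ℝ) (V : ℕ), 0 < ε → 0 < ca → 0 < ρ →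
    ∃ (x₁ ϖ δ₃ ε₁ εN : ℝ), 0 < x₁ ∧ 0 < ϖ ∧ ϖ ≤ 1 ∧ 0 < δ₃ ∧ 0 < ε₁ ∧ 0 < εN ∧ ∀ k' : ℕ,
    ∃ (γ : ℝ) (n d₀ : ℕ), 0 < γ ∧ γ ≤ 1 ∧ 1 ≤ n ∧ 1 ≤ d₀ ∧
    ∀ {J : ℕ} (F : Fam 2 J) (p : F.Ω → ℝ) (σ : Fin 2 → Fin 2) (wa wb : ℕ) (vp : ℕ → ℕ) (D R : ℕ)
      (a : ℕ → F.Ω → ℝ) (al : F.Ω → ℝ) (d tt qa qb : ℕ), d₀ ≤ d →
      Rc2 F p σ wa wb vp D a al → Sh2 wa wb vp D R tt (n * d) qa qb γ →
      wb ≤ R → R ≤ J → Det p (F.T1 R) F.T →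
      Hy2 F p σ wa wb vp D a al d (n * d) qa qb k' x₁ ϖ δ₃ ε₁ εN ca →
      ∃ B : Finset (ℕ × ℕ), (B.card : ℝ) ≤ ρ * ((wb + 1 - wa : ℕ) * (qb - qa : ℕ)) ∧
        ∀ w q, wa ≤ w → w ≤ wb → qa ≤ q → q < qb → (w, q) ∉ B →
          w + n * d ≤ wb ∧ q + V * (n * d) < qb ∧
          ∀ j ≤ V, Cc2 F p σ vp D a al (n * d) ε w (q + j * (n * d)) := by
  intro ε ca ρ V hε hca hρ
  have hV : (0 : ℝ) < V + 1 := by positivity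
  obtain ⟨x₁, ϖ, δ₃, ε₁, εN, hx₁, hϖ, hϖ1, hδ₃, hε₁, hεN, hue⟩ :=
    ueg_rect2 ε ca (ρ / (2 * (V + 1))) hε hca (by positivity)
  refine ⟨x₁, ϖ, δ₃, ε₁, εN, hx₁, hϖ, hϖ1, hδ₃, hε₁, hεN, ?_⟩
  intro k'
  obtain ⟨γ, n, d₀, hγ, hγ1, hn, hd₀, hue⟩ := hue k'
  obtain ⟨γ', hγ'⟩ : ∃ γ', γ' = min γ (ρ / (2 * (V + 1))) := ⟨_, rfl⟩
  have hγ'0 : 0 < γ' := by rw [hγ']; exact lt_min hγ (by positivity)
  have hγ'γ : γ' ≤ γ := by rw [hγ']; exact min_le_left _ _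
  have hγ'ρ : γ' * (V + 1) ≤ ρ / 2 := by
    have h1 : γ' ≤ ρ / (2 * (V + 1)) := by rw [hγ']; exact min_le_right _ _
    rw [le_div_iff₀ (by positivity)] at h1
    linarith
  refine ⟨γ', n, d₀, hγ'0, hγ'γ.trans hγ1, hn, hd₀, ?_⟩
  intro J F p σ wa wb vp D R a al d tt qa qb hd hR hS hwR hRJ hTR hH
  obtain ⟨X, hX⟩ : ∃ X, X = n * d := ⟨_, rfl⟩
  have hW0 : (0 : ℝ) ≤ (wb + 1 - wa : ℕ) := Nat.cast_nonneg _
  have hQ0 : (0 : ℝ) ≤ (qb - qa : ℕ) := Nat.cast_nonneg _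
  have hWγ := mul_le_mul_of_nonneg_right hγ'γ hW0
  have hQγ := mul_le_mul_of_nonneg_right hγ'γ hQ0
  obtain ⟨B, hB1, hB2⟩ := hue F p σ wa wb vp D R a al d tt qa qb hR hS.wab hS.qab hd hS.Xt hwR
    hRJ hTR hS.rate (hS.tγ.trans hWγ) (hS.Xγ.trans hQγ) (hS.Dγ.trans hQγ) (hS.Rγ.trans hQγ)
    hS.rise (fun w h1 h2 E hE => ⟨hH.tim w h1 h2 E hE, hH.th w h1 h2 E hE⟩)
    (fun w q X' h1 h2 h3 h4 h5 h6 h7 E hE =>
      ⟨hH.wf w q X' h1 h2 h3 h4 h5 h6 h7 E hE, hH.act w q X' h1 h2 h3 h4 h5 h6 h7 E hE⟩)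
  obtain ⟨B', hB'1, hB'2⟩ := shift_bad wa wb qa qb (n * d) V B
  refine ⟨B', ?_, ?_⟩
  · have h1 : (B'.card : ℝ) ≤ (V + 1) * B.card + (wb + 1 - wa : ℕ) * (V * (n * d : ℕ)) +
        (n * d : ℕ) * (qb - qa : ℕ) := by exact_mod_cast hB'1
    obtain ⟨W, hW⟩ : ∃ W : ℝ, W = (wb + 1 - wa : ℕ) := ⟨_, rfl⟩
    obtain ⟨Q, hQ⟩ : ∃ Q : ℝ, Q = (qb - qa : ℕ) := ⟨_, rfl⟩
    obtain ⟨Xr, hXr⟩ : ∃ Xr : ℝ, Xr = (n * d : ℕ) := ⟨_, rfl⟩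
    have hXQ : Xr ≤ γ' * Q := by rw [hXr, hQ]; exact hS.Xγ
    have hXW : Xr ≤ γ' * W := by
      have h2 : Xr ≤ tt := by
        rw [hXr]
        have := hS.Xt
        exact_mod_cast this
      rw [hW]
      exact h2.trans hS.tγ
    rw [← hW, ← hQ, ← hXr] at h1
    rw [← hW, ← hQ] at hB1 ⊢
    rw [← hW] at hW0
    rw [← hQ] at hQ0
    have h3 : ((V : ℝ) + 1) * B.card ≤ ρ / 2 * (W * Q) := by
      have h4 := mul_le_mul_of_nonneg_left hB1 hV.le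
      have e : ((V : ℝ) + 1) * (ρ / (2 * (V + 1)) * (W * Q)) = ρ / 2 * (W * Q) := by
        field_simp
      linarith
    have h4 : W * (V * Xr) ≤ V * γ' * (W * Q) := by
      have h5 : (V : ℝ) * W * Xr ≤ V * W * (γ' * Q) :=
        mul_le_mul_of_nonneg_left hXQ (mul_nonneg (Nat.cast_nonneg _) hW0)
      linarith
    have h5 : Xr * Q ≤ γ' * (W * Q) := by
      have h6 := mul_le_mul_of_nonneg_right hXW hQ0
      linarith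
    have h6 : γ' * (V + 1) * (W * Q) ≤ ρ / 2 * (W * Q) :=
      mul_le_mul_of_nonneg_right hγ'ρ (mul_nonneg hW0 hQ0)
    linarith
  · intro w q h1 h2 h3 h4 hwq
    obtain ⟨g1, g2, g3⟩ := hB'2 w q h1 h2 h3 h4 hwq
    refine ⟨g1, g2, ?_⟩
    intro j hj
    have hjX : j * (n * d) ≤ V * (n * d) := Nat.mul_le_mul_right _ hj
    have key := hB2 w (q + j * (n * d)) h1 h2 (by omega) (by omega) (g3 j hj)
    exact ⟨key.1, key.2⟩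

end Pool.UEG
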