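import Pool.Agent.H83.UEG.Ue
import Pool.Agent.H68.KG.EarlyB

/-!
# The local U-step at one context, general time laws, without the row of the first coordinate

The row of the first coordinate is full at good contexts (`Pool.KG.w_ctx`), so the only hypotheses
on events are: the times and the slopes of two samples of one line and of one window are not near,
and the velocity of the first coordinate is active.
-/

set_option autoImplicit false

namespace Pool.UEG

open Finset Real
open Pool.Agent.H49.Ent Pool.Agent.H32.Dense Pool.STK Pool.KA Pool.KSAT Pool.K2S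
open Pool.S6U Pool.OCG

section ev

variable {Ω : Type} [Fintype Ω] {p : Ω → ℝ}

theorem Pe_inter {A : Ω → Prop} (B : Ω → Prop) :
    Pe (Pool.Agent.H49.Ent.cond p A True) B = Pe p (fun ω => A ω ∧ B ω) / Pe p A := by
  classical
  rw [Pe_eq, Pe_eq p fun ω => A ω ∧ B ω, Finset.sum_div]
  refine Finset.sum_congr rfl fun ω _ => ?_
  unfold Pool.Agent.H49.Ent.cond
  by_cases hA : A ω <;> by_cases hB : B ω <;> simp [hA, hB]

theorem cond_inter {A B : Ω → Prop} (hA : Pe p A ≠ 0) :
    Pool.Agent.H49.Ent.cond (Pool.Agent.H49.Ent.cond p A True) B True =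
      Pool.Agent.H49.Ent.cond p (fun ω => A ω ∧ B ω) True := by
  classical
  have e2 : law (Pool.Agent.H49.Ent.cond p A True) B True =
      law p (fun ω => A ω ∧ B ω) True / law p A True := Pe_inter B
  funext ω
  unfold Pool.Agent.H49.Ent.cond at e2 ⊢
  by_cases hAω : A ω = True
  · by_cases hB : B ω = True
    · have h1 : (A ω ∧ B ω) = True := eq_true ⟨of_eq_true hAω, of_eq_true hB⟩
      rw [if_pos hB, if_pos hAω, e2, div_div_div_cancel_right₀ hA]
      exact (if_pos h1).symm
    · have h1 : ¬ ((A ω ∧ B ω) = True) := fun h' => hB (eq_true (of_eq_true h').2)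
      rw [if_neg hB]
      exact (if_neg h1).symm
  · have h1 : ¬ ((A ω ∧ B ω) = True) := fun h' => hAω (eq_true (of_eq_true h').1)
    rw [if_neg hAω, zero_div]
    refine Eq.trans ?_ (if_neg h1).symm
    split_ifs <;> rfl

end ev

/-- The rounded position at the time of the sample and the position. -/
theorem CH_rmx {m J : ℕ} {F : Fam m J} {p : F.Ω → ℝ} {w : ℕ} {c : Fin m → ℕ}
    {M : F.Ω → Fin m → Fin m → ℝ} {X r X' : ℕ} {T : Type} (hp : IsLaw p) (h : r + X' ≤ X)
    (i₀ : Fin m) (Z : F.Ω → T) :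
    CH p (Uni.dg X' (fun ω => rmu F w c M X r i₀ ω + F.wt w ω * rmd F c M X r i₀ ω))
      (fun ω => (Uni.dg X' (fun ω => F.mx w (fun i => c i + r) M ω i₀) ω, Z ω)) ≤
        Real.log 15 ∧
    CH p (Uni.dg X' (fun ω => F.mx w (fun i => c i + r) M ω i₀))
      (fun ω => (Uni.dg X' (fun ω => rmu F w c M X r i₀ ω + F.wt w ω * rmd F c M X r i₀ ω) ω,
        Z ω)) ≤ Real.log 15 := by
  have key : ∀ ω, |(2 : ℝ) ^ X' * (rmu F w c M X r i₀ ω + F.wt w ω * rmd F c M X r i₀ ω) -
      2 ^ X' * F.mx w (fun i => c i + r) M ω i₀| ≤ 2 := by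
    intro ω
    have a1 := rd_near (X := X) (r := r) (by omega) (F.mu w (fun i => c i + w) M ω i₀)
    have a2 := rd_near (X := X) (r := r) (by omega) (F.md c M ω i₀)
    have t0 := Lab.wt_mem F w ω
    have e0 : F.mx w (fun i => c i + r) M ω i₀ =
        Int.fract (2 ^ r * F.mu w (fun i => c i + w) M ω i₀) +
          F.wt w ω * Int.fract (2 ^ r * F.md c M ω i₀) := by
      unfold Fam.mx
      rw [mu_lbr, md_lbr]
    rw [e0]
    unfold rmu rmd
    generalize rd X r (F.mu w (fun i => c i + w) M ω i₀) = A1 at a1 ⊢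
    generalize rd X r (F.md c M ω i₀) = A2 at a2 ⊢
    generalize Int.fract (2 ^ r * F.mu w (fun i => c i + w) M ω i₀) = B1 at a1 ⊢
    generalize Int.fract (2 ^ r * F.md c M ω i₀) = B2 at a2 ⊢
    generalize F.wt w ω = t at t0 ⊢
    have e1 : (1 : ℝ) / 2 ^ (X - r) ≤ 1 / 2 ^ X' :=
      div_le_div_of_nonneg_left zero_le_one (by positivity)
        (pow_le_pow_right₀ (by norm_num) (by omega))
    have e2 : |(A1 + t * A2) - (B1 + t * B2)| ≤ 2 / 2 ^ X' := by
      have e3 : (A1 + t * A2) - (B1 + t * B2) = (A1 - B1) + t * (A2 - B2) := by ring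
      rw [e3]
      refine (abs_add_le _ _).trans ?_
      have e4 : |t * (A2 - B2)| ≤ 1 / 2 ^ X' := by
        rw [abs_mul, abs_of_nonneg t0.1]
        have := mul_le_mul t0.2.le (a2.trans e1) (abs_nonneg _) zero_le_one
        linarith only [this]
      have e5 : (2 : ℝ) / 2 ^ X' = 1 / 2 ^ X' + 1 / 2 ^ X' := by ring
      rw [e5]
      exact add_le_add (a1.trans e1) e4
    rw [← mul_sub, abs_mul, abs_of_pos (by positivity : (0 : ℝ) < 2 ^ X')]
    calc (2 : ℝ) ^ X' * |(A1 + t * A2) - (B1 + t * B2)| ≤ 2 ^ X' * (2 / 2 ^ X') :=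
          mul_le_mul_of_nonneg_left e2 (by positivity)
      _ = 2 := by field_simp
  constructor
  · have k1 := CH_int hp
      (Uni.dg X' (fun ω => rmu F w c M X r i₀ ω + F.wt w ω * rmd F c M X r i₀ ω))
      (fun ω => (Uni.dg X' (fun ω => F.mx w (fun i => c i + r) M ω i₀) ω, Z ω)) (c := 6) (by
      intro ω ω' _ _ e
      have e1 : ⌊(2 : ℝ) ^ X' * F.mx w (fun i => c i + r) M ω i₀⌋ =
        ⌊(2 : ℝ) ^ X' * F.mx w (fun i => c i + r) M ω' i₀⌋ := (Prod.ext_iff.mp e).1
      have k1 := abs_le.1 (key ω)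
      have k2 := abs_le.1 (key ω')
      have k3 := abs_le.1 (Plk.abs_sub_lt_of_floor e1)
      refine (Plk.floor_sub_lt (c := 5) ?_).trans (by norm_num)
      rw [abs_le]
      constructor <;> linarith only [k1, k2, k3, k1.1, k1.2, k2.1, k2.2, k3.1, k3.2])
    exact k1.trans (Real.log_le_log (by norm_num) (by norm_num))
  · have k1 := CH_int hp
      (Uni.dg X' (fun ω => F.mx w (fun i => c i + r) M ω i₀))
      (fun ω => (Uni.dg X' (fun ω => rmu F w c M X r i₀ ω + F.wt w ω * rmd F c M X r i₀ ω) ω,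
        Z ω)) (c := 6) (by
      intro ω ω' _ _ e
      have e1 : ⌊(2 : ℝ) ^ X' * (rmu F w c M X r i₀ ω + F.wt w ω * rmd F c M X r i₀ ω)⌋ =
        ⌊(2 : ℝ) ^ X' * (rmu F w c M X r i₀ ω' + F.wt w ω' * rmd F c M X r i₀ ω')⌋ :=
        (Prod.ext_iff.mp e).1
      have k1 := abs_le.1 (key ω)
      have k2 := abs_le.1 (key ω')
      have k3 := abs_le.1 (Plk.abs_sub_lt_of_floor e1)
      refine (Plk.floor_sub_lt (c := 5) ?_).trans (by norm_num)
      rw [abs_le]
      constructor <;> linarith only [k1, k2, k3, k1.1, k1.2, k2.1, k2.2, k3.1, k3.2])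
    exact k1.trans (Real.log_le_log (by norm_num) (by norm_num))

/-- **The row of the first coordinate** at a good context. -/
theorem w_row (κ ca ε : ℝ) (hκ : 0 < κ) (hκ1 : κ ≤ 1) (hca : 0 < ca) (hε : 0 < ε) :
    ∃ ϖ : ℝ, 0 < ϖ ∧ ∀ k' : ℕ, ∃ (ι : ℝ) (X₀ : ℕ), 0 < ι ∧
    ∀ {m J : ℕ} (F : Fam m J) {Γ : Type} (G : F.Ω → Γ) (q : F.Ω → ℝ) (i₀ : Fin m) (w : ℕ)
      (c : Fin m → ℕ) (M : F.Ω → Fin m → Fin m → ℝ) (X r X' : ℕ) (eT eB eM η : ℝ), IsLaw q →
      X₀ ≤ X' → r + X' ≤ X → Det q (slam F w) M →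
      tT F q w (fun i => c i + r) M X ≤ eT → tB F q i₀ w (fun i => c i + r) M G X ≤ eB →
      tM F q w (fun i => c i + r) M G X ≤ eM → eT ≤ ι * X' →
      eB + eM + 2 * Real.log 15 ≤ ι * X' →
      3 * ∑ i ∈ Finset.range X', nr q (slam F w) (F.wt w) k' i ≤ η * X' →
      (∀ E : F.Ω → Prop, ϖ ≤ Pe q E → ca * ⌊κ * X'⌋₊ * Real.log 2 ≤
        CH (Pool.Agent.H49.Ent.cond q E True)
          (Uni.dg ⌊κ * X'⌋₊ (fun ω => F.md (fun i => c i + r) M ω i₀)) (F.lbr w c M r)) →
      (1 - ε - η) * X' * Real.log 2 - ⌊κ * X'⌋₊ * Real.log 2 - Real.log 15 ≤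
        CH q (Uni.dg X' (fun ω => F.mx w (fun i => c i + r) M ω i₀))
          (fun ω => (F.lbr w c M r ω, F.T ω)) := by
  obtain ⟨ϖ, hϖ, hw⟩ := Pool.KG.w_ctx κ ca ε hκ hκ1 hca hε
  refine ⟨ϖ, hϖ, fun k' => ?_⟩
  obtain ⟨ι, X₀, hι, hw⟩ := hw k'
  refine ⟨ι, X₀, hι, ?_⟩
  intro m J F Γ G q i₀ w c M X r X' eT eB eM η hq hX hrX hM hT hB hm i1 i2 hN hact
  have h0 := hq.nonneg
  have dL : Det q (slam F w) (fun ω => (F.lbr w c M X ω, F.lbr w c M r ω)) :=
    fun ω ω' a b h => Prod.ext (lbr_slam hM X ω ω' a b h) (lbr_slam hM r ω ω' a b h)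
  have hsh : ∀ n, F.lbr w (fun i => c i + r) M n = F.lbr w c M (r + n) := by
    intro n
    unfold Fam.lbr
    congr 1
    funext i
    ring
  have eqM : tM F q w (fun i => c i + r) M G X =
    dp q G (F.lbr w c M (r + X)) (fun ω => (F.lbr w c M r ω, F.T ω)) := by
    unfold tM
    rw [hsh]
    rfl
  have eqT : tT F q w (fun i => c i + r) M X =
    dp q F.T (F.lbr w c M (r + X)) (F.lbr w c M r) := by
    unfold tT
    rw [hsh]
    rfl
  obtain ⟨yt, hyt⟩ : ∃ yt, yt = Uni.dg X' (fun ω => F.mx w (fun i => c i + r) M ω i₀) :=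
    ⟨_, rfl⟩
  obtain ⟨yr, hyr⟩ : ∃ yr, yr =
    Uni.dg X' (fun ω => rmu F w c M X r i₀ ω + F.wt w ω * rmd F c M X r i₀ ω) := ⟨_, rfl⟩
  obtain ⟨om, hom⟩ : ∃ om, om = Uni.dg X' (fun ω => F.md (fun i => c i + r) M ω i₀) :=
    ⟨_, rfl⟩
  exact by
   have k1 : ∀ {T : Type} (Z : F.Ω → T), CH q yr (fun ω => (yt ω, Z ω)) ≤ Real.log 15 := by
     intro T Z
     rw [hyt, hyr]
     exact (CH_rmx (c := c) hq hrX i₀ Z).1
   have k2 : ∀ {T : Type} (Z : F.Ω → T), CH q yt (fun ω => (yr ω, Z ω)) ≤ Real.log 15 := by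
     intro T Z
     rw [hyt, hyr]
     exact (CH_rmx (c := c) hq hrX i₀ Z).2
   have key := hw F.Ω _ _ _ q (F.lbr w c M r) (F.lbr w c M X) F.T (rmu F w c M X r i₀)
     (rmd F c M X r i₀) (F.wt w)
     (fun ω => rmu F w c M X r i₀ ω + F.wt w ω * rmd F c M X r i₀ ω) X'
     ⟨hq, fun ω ω' _ _ e => by
         have h := (lbr_dig le_rfl (Prod.ext_iff.mp e).2 i₀).1
         unfold rmu Pool.S6U.rd
         rw [h], fun ω ω' _ _ e => by
         have h := (lbr_dig le_rfl (Prod.ext_iff.mp e).2 i₀).2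
         unfold rmd Pool.S6U.rd
         rw [h], fun ω ω' _ _ e => wt_det (Prod.ext_iff.mp e).2,
       fun ω _ => Lab.wt_mem F w ω, fun _ _ => rfl⟩ hX
     (by
       rw [MI_eq_dp h0]
       refine le_trans ?_ i1
       refine le_trans ?_ (eqT ▸ hT)
       exact dp_mono h0 (fun ω ω' _ _ h => (Prod.ext_iff.mp h).1)
         (fun ω ω' _ _ h => lbr_mono (by omega) (Prod.ext_iff.mp h).1))
     (by
       rw [dg_rmd hrX]
       have b0 : dp q yr om (fun ω => (F.lbr w c M r ω, F.T ω)) ≤
           dp q yt om (fun ω => (F.lbr w c M r ω, F.T ω)) + Real.log 15 :=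
         dp_le_add h0 (k1 _)
       have b1 : dp q yt om (fun ω => (F.lbr w c M r ω, F.T ω)) ≤
           dp q (fun ω => (yt ω, G ω)) om (fun ω => (F.lbr w c M r ω, F.T ω)) :=
         dp_mono h0 (fun _ _ _ _ h => (Prod.ext_iff.mp (Prod.ext_iff.mp h).1).1)
           (fun _ _ _ _ h => (Prod.ext_iff.mp h).1)
       have b2 := dp_add h0 yt G om (fun ω => (F.lbr w c M r ω, F.T ω))
       have b3 : dp q G om (fun ω => (F.lbr w c M r ω, F.T ω)) ≤ eM := by
         refine le_trans ?_ hm
         rw [eqM]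
         refine dp_mono h0 (fun _ _ _ _ h => (Prod.ext_iff.mp h).1) ?_
         intro ω ω' _ _ h
         have h1 : F.lbr w (fun i => c i + r) M X ω = F.lbr w (fun i => c i + r) M X ω' := by
           rw [hsh]
           exact (Prod.ext_iff.mp h).1
         rw [hom]
         exact (lbr_dig (r := X') (by omega) h1 i₀).2
       have b4 : dp q yt om (fun ω => (G ω, (F.lbr w c M r ω, F.T ω))) ≤ eB := by
         rw [dp_symm h0]
         refine le_trans ?_ hB
         unfold tB
         rw [hom, hyt, dp_congr_cond h0 (b' := cdn F w (fun i => c i + r) M G)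
           (fun ω ω' _ _ h => by
             have e1 := Prod.ext_iff.mp h
             have e2 := Prod.ext_iff.mp e1.2
             exact Prod.ext e2.1 (Prod.ext e1.1 e2.2))
           (fun ω ω' _ _ h => by
             have e1 := Prod.ext_iff.mp h
             have e2 := Prod.ext_iff.mp e1.2
             exact Prod.ext e2.1 (Prod.ext e1.1 e2.2))]
         exact dp_mono h0 (fun ω ω' _ _ h => dg_mono (by omega) (Prod.ext_iff.mp h).1)
           (fun ω ω' _ _ h => dg_mono (by omega) (Prod.ext_iff.mp h).1)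
       have hl15 : 0 ≤ Real.log 15 := Real.log_nonneg (by norm_num)
       have b5 : dp q yr om (fun ω => (F.lbr w c M r ω, F.T ω)) ≤ ι * X' := by linarith only [i2, b0, b1, b2, b3, b4, hl15]
       rw [hyr, hom] at b5
       exact b5) η
     (by
       have a1 : ∑ i ∈ Finset.range X', nr q (fun ω => (F.lbr w c M X ω, F.lbr w c M r ω))
           (F.wt w) k' i ≤ ∑ i ∈ Finset.range X', 3 * nr q (slam F w) (F.wt w) k' i :=
         Finset.sum_le_sum fun i _ => nr_coarse hq dL (F.wt w) k' i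
       rw [← Finset.mul_sum] at a1
       exact a1.trans hN)
     (fun E hE => by
       refine (hact E hE).trans (le_of_eq ?_)
       have hc : ∀ ω, 0 ≤ Pool.Agent.H49.Ent.cond q E True ω := cond_nonneg h0 _ _
       have hX'r : (0 : ℝ) ≤ X' := Nat.cast_nonneg _
       have hle : ⌊κ * X'⌋₊ ≤ X' := by
         have h3 : κ * (X' : ℝ) ≤ X' := by nlinarith only [hκ1]
         have h4 := (Nat.floor_le (mul_nonneg hκ.le hX'r)).trans h3
         exact_mod_cast h4
       have e1 := dg_rmd (F := F) (c := c) (M := M) (X := X) (r := r) (X' := ⌊κ * X'⌋₊)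
         (by omega) i₀
       rw [e1]
       refine CH_congr hc (fun _ _ _ _ h => (Prod.ext_iff.mp h).1)
         (fun _ _ _ _ h => (Prod.ext_iff.mp h).1) ?_ ?_
       · intro ω ω' _ _ e
         have f1 : ∀ ω, ⌊rmd F c M X r i₀ ω⌋ = 0 := by
           intro ω
           have := rd_mem X r (F.md c M ω i₀)
           rw [Int.floor_eq_zero_iff]
           exact ⟨this.1, this.2⟩
         exact Prod.ext ((f1 ω).trans (f1 ω').symm) e
       · intro ω ω' _ _ e
         exact (Prod.ext_iff.mp e).2)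
   exact by
    have b6 : CH q yr (fun ω => (F.lbr w c M r ω, F.T ω)) ≤
        CH q yt (fun ω => (F.lbr w c M r ω, F.T ω)) + Real.log 15 := by
      have c1 := CH_le_add h0 yr yt (fun ω => (F.lbr w c M r ω, F.T ω))
      have c2 := k1 (fun ω => (F.lbr w c M r ω, F.T ω))
      linarith only [c1, c2]
    rw [hyr, hyt] at b6
    linarith only [key, b6]

/-- **The U-step at one context**: the pair, and the row given the line data. -/
theorem ueg_pairW : ∀ ε ca : ℝ, 0 < ε → 0 < ca → ∃ (x₁ ϖ κ₀ ε₁ εN : ℝ), 0 < x₁ ∧ 0 < ϖ ∧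
    ϖ ≤ 1 ∧ 0 < κ₀ ∧ 0 < ε₁ ∧ 0 < εN ∧ ∀ k' : ℕ, ∃ (δ : ℝ) (n d₀ : ℕ), 0 < δ ∧ 1 ≤ n ∧ 1 ≤ d₀ ∧
    ∀ {m J : ℕ} (F : Fam m J) {Γ : Type} (G : F.Ω → Γ) (p : F.Ω → ℝ) (i₀ iu : Fin m) (w : ℕ)
      (c : Fin m → ℕ) (M : F.Ω → Fin m → Fin m → ℝ) (S : F.Ω → ℝ) (d : ℕ), IsLaw p →
      d₀ ≤ d → Det p (slam F w) M →
      Det p (fun ω => (F.blb w c M ω, (G ω, F.T ω))) S → (∀ ω, 0 < p ω → |S ω| ≤ 4) →
      (∀ E : F.Ω → Prop, ϖ ≤ Pe p E →
        TqG F w S (n * d) k' x₁ ε₁ εN (Pool.Agent.H49.Ent.cond p E True)) →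
      (∀ r X' : ℕ, d ∣ r → κ₀ * (n * d : ℕ) ≤ X' → r + X' ≤ n * d → ∀ E : F.Ω → Prop, ϖ ≤ Pe p E →
        ca * X' * Real.log 2 ≤ CH (Pool.Agent.H49.Ent.cond p E True)
          (Uni.dg X' (fun ω => F.md (fun i => c i + r) M ω i₀)) (F.lbr w c M r)) →
      (∀ r, d ∣ r → r < n * d → DqG F p i₀ iu w (fun i => c i + r) M S G (n * d) δ) →
      (1 - ε) * (n * d : ℕ) * Real.log 2 ≤
        CH p (Uni.dg (n * d) (tnu F w c M i₀ iu S))
          (fun ω => (vd F i₀ iu w c M (n * d) ω, cdn F w c M G ω)) ∧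
      (2 - ε) * (n * d : ℕ) * Real.log 2 ≤
        CH p (fun ω => (Uni.dg (n * d) (tnu F w c M i₀ iu S) ω,
          Uni.dg (n * d) (fun ω => F.mx w c M ω i₀) ω)) (cdn F w c M G) := by
  intro ε ca hε hca
  obtain ⟨x₀, η₀, ϖo, ε₁, ι₃, εT, hx₀, hη₀, hϖo, hε₁, hι₃, hεT, hoc⟩ :=
    ocdt_thm (ε / 2) ca 0 (by positivity) hca le_rfl
  obtain ⟨u, hu⟩ : ∃ u, u = Real.log 2 := ⟨_, rfl⟩
  have hu0 : 0 < u := by rw [hu]; exact Real.log_pos (by norm_num)
  obtain ⟨η, hη'⟩ : ∃ η, η = min η₀ 1 := ⟨_, rfl⟩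
  have hη : 0 < η := by rw [hη']; exact lt_min hη₀ one_pos
  have hη1 : η ≤ 1 := by rw [hη']; exact min_le_right _ _
  have hηη : η ≤ η₀ := by rw [hη']; exact min_le_left _ _
  obtain ⟨μ, hμ⟩ : ∃ μ, μ = min (min ι₃ ε) 1 / 64 := ⟨_, rfl⟩
  have hμ0 : 0 < μ := by
    rw [hμ]
    have : 0 < min (min ι₃ ε) 1 := lt_min (lt_min hι₃ hε) one_pos
    positivity
  have hμ1 : μ ≤ 1 := by
    rw [hμ]
    have : min (min ι₃ ε) 1 ≤ 1 := min_le_right _ _
    linarith only [this]
  have hμι : 64 * μ ≤ ι₃ := by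
    rw [hμ]
    have h1 : min (min ι₃ ε) 1 ≤ min ι₃ ε := min_le_left _ _
    have h2 : min ι₃ ε ≤ ι₃ := min_le_left _ _
    linarith only [h1, h2]
  have hμε : 64 * μ ≤ ε := by
    rw [hμ]
    have h1 : min (min ι₃ ε) 1 ≤ min ι₃ ε := min_le_left _ _
    have h2 : min ι₃ ε ≤ ε := min_le_right _ _
    linarith only [h1, h2]
  obtain ⟨ϖw, hϖw, hwr⟩ := w_row μ ca μ hμ0 hμ1 hca hμ0
  obtain ⟨ϖa, hϖa⟩ : ∃ ϖa, ϖa = min ϖo 1 := ⟨_, rfl⟩
  exact by
   obtain ⟨ϖb, hϖb⟩ : ∃ ϖb, ϖb = min ϖw 1 := ⟨_, rfl⟩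
   have hϖa0 : 0 < ϖa := by rw [hϖa]; exact lt_min hϖo one_pos
   have hϖb0 : 0 < ϖb := by rw [hϖb]; exact lt_min hϖw one_pos
   have hϖa1 : ϖa ≤ 1 := by rw [hϖa]; exact min_le_right _ _
   have hϖb1 : ϖb ≤ 1 := by rw [hϖb]; exact min_le_right _ _
   have hϖao : ϖa ≤ ϖo := by rw [hϖa]; exact min_le_left _ _
   have hϖbw : ϖb ≤ ϖw := by rw [hϖb]; exact min_le_left _ _
   obtain ⟨ϖ', hϖ'⟩ : ∃ ϖ', ϖ' = ϖa * ϖb := ⟨_, rfl⟩
   have hϖ'0 : 0 < ϖ' := by rw [hϖ']; positivity
   have hϖ'a : ϖ' ≤ ϖa := by rw [hϖ']; exact mul_le_of_le_one_right hϖa0.le hϖb1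
   have hϖ'1 : ϖ' ≤ 1 := hϖ'a.trans hϖa1
   refine ⟨x₀ * η, ϖ', μ * η / 2, ε₁ / 3, min (εT * η / 3) (μ * η / 3), by positivity, hϖ'0,
     hϖ'1, by positivity, by positivity, lt_min (by positivity) (by positivity), ?_⟩
   obtain ⟨εN, hεN⟩ : ∃ εN, εN = min (εT * η / 3) (μ * η / 3) := ⟨_, rfl⟩
   rw [← hεN]
   have hεN1 : εN ≤ εT * η / 3 := by rw [hεN]; exact min_le_left _ _
   have hεN2 : εN ≤ μ * η / 3 := by rw [hεN]; exact min_le_right _ _
   intro k'
   obtain ⟨ι, n₀, hι, hoc⟩ := hoc k'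
   obtain ⟨ιw, X₀, hιw, hwr⟩ := hwr k'
   have hm0 : 0 < min u 1 := lt_min hu0 one_pos
   obtain ⟨jj, hjj⟩ : ∃ jj, jj = min (min ι ι₃) (min ιw ε) := ⟨_, rfl⟩
   have hjj0 : 0 < jj := by rw [hjj]; exact lt_min (lt_min hι hι₃) (lt_min hιw hε)
   have hjι : jj ≤ ι := by rw [hjj]; exact (min_le_left _ _).trans (min_le_left _ _)
   have hjι₃ : jj ≤ ι₃ := by rw [hjj]; exact (min_le_left _ _).trans (min_le_right _ _)
   have hjιw : jj ≤ ιw := by rw [hjj]; exact (min_le_right _ _).trans (min_le_left _ _)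
   have hjε : jj ≤ ε := by rw [hjj]; exact (min_le_right _ _).trans (min_le_right _ _)
   obtain ⟨ℓ, hl⟩ : ∃ ℓ, ℓ = jj * η * (min u 1) * ϖ' / 16 := ⟨_, rfl⟩
   have hl0 : 0 < ℓ := by rw [hl]; positivity
   obtain ⟨N₁, hN₁⟩ := exists_nat_ge ((u + Real.log 45 + 2 * Real.log 7 + 2 * Real.log 15) / ℓ)
   exact by
    obtain ⟨N₂, hN₂⟩ := exists_nat_ge (2 / (μ * η))
    obtain ⟨N₃, hN₃⟩ := exists_nat_ge (Real.log 15 / (μ * u))
    have hl45 : 0 ≤ Real.log 45 := Real.log_nonneg (by norm_num)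
    have hl7 : 0 ≤ Real.log 7 := Real.log_nonneg (by norm_num)
    have hl15 : 0 ≤ Real.log 15 := Real.log_nonneg (by norm_num)
    refine ⟨ℓ, n₀ + 1, N₁ + N₂ + N₃ + X₀ + 1, hl0, by omega, by omega, ?_⟩
    intro m J F Γ G p i₀ iu w c M S d hp hd hM hS hS4 hT hB hD
    obtain ⟨X, hX⟩ : ∃ X, X = (n₀ + 1) * d := ⟨_, rfl⟩
    rw [← hX] at hT hB hD ⊢
    have hdX : n₀ * d ≤ X := by rw [hX]; exact Nat.mul_le_mul_right d (by omega)
    have hd1 : 1 ≤ d := by omega
    have hXd : d ≤ X := by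
      rw [hX]
      calc d = 1 * d := (one_mul d).symm
        _ ≤ (n₀ + 1) * d := Nat.mul_le_mul_right d (by omega)
    have hX0 : (0 : ℝ) < X := by
      have : 0 < X := by omega
      exact_mod_cast this
    have hb0 : F.lbr w c M 0 = F.blb w c M := rfl
    -- the constants are small against the block
    have hbig : u + Real.log 45 + 2 * Real.log 7 + 2 * Real.log 15 ≤ ℓ * X := by
      have h1 : ((N₁ : ℕ) : ℝ) ≤ X := by
        have : N₁ ≤ X := by omega
        exact_mod_cast this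
      have h2 := hN₁.trans h1
      rw [div_le_iff₀ hl0] at h2
      linarith only [h2]
    have hbig2 : 2 ≤ μ * η * X := by
      have h1 : ((N₂ : ℕ) : ℝ) ≤ X := by
        have : N₂ ≤ X := by omega
        exact_mod_cast this
      have h2 := hN₂.trans h1
      rw [div_le_iff₀ (by positivity)] at h2
      linarith only [h2]
    exact by
     have hbig3 : ∀ X' : ℕ, d ≤ X' → Real.log 15 ≤ μ * X' * u := by
       intro X' hX'
       have h1 : ((N₃ : ℕ) : ℝ) ≤ X' := by
         have : N₃ ≤ X' := by omega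
         exact_mod_cast this
       have h2 := hN₃.trans h1
       rw [div_le_iff₀ (by positivity)] at h2
       linarith only [h2]
     have hSr : ∀ r, Det p (fun ω => (F.lbr w c M r ω, (G ω, F.T ω))) S := by
       intro r ω ω' a b e
       refine hS ω ω' a b ?_
       exact Prod.ext (lbr_mono (r := 0) (Nat.zero_le _) (Prod.ext_iff.mp e).1) (Prod.ext_iff.mp e).2
     have dT : Det p (fun ω => (G ω, F.T ω)) F.T := fun _ _ _ _ h => (Prod.ext_iff.mp h).2
     -- the block `(r, r + X']` on the event `E`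
     have blk : ∀ r X' : ℕ, d ∣ r → d ∣ X' → η * X ≤ X' → r + X' ≤ X → ∀ E : F.Ω → Prop,
         ϖa ≤ Pe p E →
         (tT F (Pool.Agent.H49.Ent.cond p E True) w (fun i => c i + r) M X ≤
             jj * min u 1 / 8 * X' ∧
           tA F (Pool.Agent.H49.Ent.cond p E True) i₀ iu w (fun i => c i + r) M S G X ≤
             jj * min u 1 / 8 * X' ∧
           tB F (Pool.Agent.H49.Ent.cond p E True) i₀ w (fun i => c i + r) M G X ≤
             jj * min u 1 / 8 * X' ∧
           tM F (Pool.Agent.H49.Ent.cond p E True) w (fun i => c i + r) M G X ≤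
             jj * min u 1 / 8 * X') ∧
         X' * u - 4 * μ * X' * u ≤ CH (Pool.Agent.H49.Ent.cond p E True)
           (Uni.dg X' (fun ω => F.mx w (fun i => c i + r) M ω i₀))
           (fun ω => (F.lbr w c M r ω, F.T ω)) := by
       intro r X' hdr hdX' hηX hrX E hE
       have hE' : ϖ' ≤ Pe p E := hϖ'a.trans hE
       obtain ⟨q, hqe⟩ : ∃ q, q = Pool.Agent.H49.Ent.cond p E True := ⟨_, rfl⟩
       have hq : IsLaw q := by rw [hqe]; exact ev_law hp hϖ'0 hE'
       have hX'0 : (0 : ℝ) < X' := by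
         have : 0 < η * X := by positivity
         linarith only [hηX, this]
       have hX'1 : 0 < X' := by exact_mod_cast hX'0
       have hdX'' : d ≤ X' := Nat.le_of_dvd hX'1 hdX'
       have t1 := hT E hE'
       have t3 := hD r hdr (by omega)
       rw [← hqe] at t1 ⊢
       have ev : ∀ {A B C : Type} (N : F.Ω → A) (V : F.Ω → B) (b : F.Ω → C),
           dp p N V b ≤ ℓ * X → dp q N V b ≤ 2 * (ℓ * X) / ϖ' := by
         intro A B C N V b h
         rw [hqe]
         refine (dp_event' hp hϖ'0 hE' N V b).trans ?_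
         refine div_le_div_of_nonneg_right ?_ hϖ'0.le
         rw [← hu]
         linarith only [hl45, hl7, hl15, hbig, h]
       have e1 : 2 * (ℓ * X) / ϖ' ≤ jj * min u 1 / 8 * (η * X) := by
         rw [hl]
         refine le_of_eq ?_
         field_simp
         ring
       have e2 : jj * min u 1 / 8 * (η * X) ≤ jj * min u 1 / 8 * X' :=
         mul_le_mul_of_nonneg_left hηX (by positivity)
       have kT : tT F q w (fun i => c i + r) M X ≤ jj * min u 1 / 8 * X' :=
         (ev _ _ _ t3.t).trans (e1.trans e2)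
       have kA : tA F q i₀ iu w (fun i => c i + r) M S G X ≤ jj * min u 1 / 8 * X' :=
         (ev _ _ _ t3.a).trans (e1.trans e2)
       have kB : tB F q i₀ w (fun i => c i + r) M G X ≤ jj * min u 1 / 8 * X' :=
         (ev _ _ _ t3.b).trans (e1.trans e2)
       have kM : tM F q w (fun i => c i + r) M G X ≤ jj * min u 1 / 8 * X' :=
         (ev _ _ _ t3.m).trans (e1.trans e2)
       refine ⟨⟨kT, kA, kB, kM⟩, ?_⟩
       have e3 : ℓ * X ≤ jj * min u 1 / 16 * (η * X) := by
         have h1 : ℓ * X = jj * min u 1 / 16 * (η * X) * ϖ' := by rw [hl]; ring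
         rw [h1]
         have h2 : 0 ≤ jj * min u 1 / 16 * (η * X) := by positivity
         nlinarith only [h1, hu0, hϖa1, hϖ'a, hl45, hl7, hl15, hbig, hϖ'0]
       have e4 : jj * min u 1 / 16 * (η * X) ≤ jj * min u 1 / 16 * X' :=
         mul_le_mul_of_nonneg_left hηX (by positivity)
       obtain ⟨Y, hY⟩ : ∃ Y, Y = jj * min u 1 / 16 * X' := ⟨_, rfl⟩
       have hY0 : 0 ≤ Y := by rw [hY]; positivity
       have eY : jj * min u 1 / 8 * (X' : ℝ) = 2 * Y := by rw [hY]; ring
       have y1 : 16 * Y ≤ ιw * X' := by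
         rw [hY]
         have h1 : jj * min u 1 * X' ≤ jj * 1 * X' :=
           mul_le_mul_of_nonneg_right (mul_le_mul_of_nonneg_left (min_le_right _ _) hjj0.le) hX'0.le
         have h2 : jj * X' ≤ ιw * X' := mul_le_mul_of_nonneg_right hjιw hX'0.le
         linarith only [h1, h2]
       have y4 : ℓ * X ≤ Y := by rw [hY]; linarith only [e2, e3]
       rw [eY] at kT kB kM
       have key := hwr F G q i₀ w c M X r X' (2 * Y) (2 * Y) (2 * Y) μ hq (by omega) hrX
         (by rw [hqe]; exact det_ev hp.nonneg hM) kT kB kM (by linarith only [hu0, hl45, hl7, hl15, hbig, e2, e3, hY, y1]) (by linarith only [hu0, hl45, hl7, hl15, hbig, e2, e3, hY, y1])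
         (by
           have h1 : ∑ i ∈ Finset.range X', nr q (slam F w) (F.wt w) k' i ≤ εN * X := by
             refine le_trans ?_ t1.nr
             refine Finset.sum_le_sum_of_subset_of_nonneg ?_ fun i _ _ => nr_nonneg hq.nonneg _ _ _ _
             exact Finset.range_subset_range.2 (by omega)
           have h2 : εN * X ≤ μ * η / 3 * X := mul_le_mul_of_nonneg_right hεN2 hX0.le
           have h3 : μ * (η * X) ≤ μ * X' := mul_le_mul_of_nonneg_left hηX hμ0.le
           linarith only [h1, h2, h3])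
         (fun E' hE'' => by
           rw [hqe, cond_inter (p := p) (A := E) (B := E') (by linarith only [hϖa0, hE, hE', hϖ'0])]
           have hPe : ϖ' ≤ Pe p (fun ω => E ω ∧ E' ω) := by
             have h1 := Pe_inter (p := p) (A := E) E'
             rw [← hqe] at h1
             have h2 : 0 < Pe p E := hϖ'0.trans_le hE'
             rw [eq_div_iff h2.ne'] at h1
             rw [← h1, hϖ', mul_comm ϖa ϖb]
             exact mul_le_mul (hϖbw.trans hE'') hE hϖa0.le
               ((hϖb0.le).trans (hϖbw.trans hE''))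
           have hfl : μ * X' - 1 ≤ (⌊μ * (X' : ℝ)⌋₊ : ℝ) := by
             have := Nat.lt_floor_add_one (μ * (X' : ℝ))
             linarith only [this]
           have hfl2 : ⌊μ * (X' : ℝ)⌋₊ ≤ X' := by
             have h3 : μ * (X' : ℝ) ≤ X' := by nlinarith only [hμ1]
             have h4 := (Nat.floor_le (mul_nonneg hμ0.le hX'0.le)).trans h3
             exact_mod_cast h4
           refine hB r ⌊μ * (X' : ℝ)⌋₊ hdr ?_ (by omega) _ hPe
           have h3 : μ * (η * X) ≤ μ * X' := mul_le_mul_of_nonneg_left hηX hμ0.le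
           linarith only [hbig2, hfl, h3])
       have hfl : (⌊μ * (X' : ℝ)⌋₊ : ℝ) ≤ μ * X' := Nat.floor_le (mul_nonneg hμ0.le hX'0.le)
       have hflu := mul_le_mul_of_nonneg_right hfl hu0.le
       have h15 := hbig3 X' hdX''
       rw [← hu] at key
       refine le_trans ?_ key
       have e5 : (1 - μ - μ) * X' * u = X' * u - 2 * (μ * X' * u) := by ring
       rw [e5]
       linarith only [hflu, h15]
     -- the row
     exact by
      have hnu : (1 - ε / 2) * X * Real.log 2 ≤ CH p (Uni.dg X (rnu F w c M X 0 i₀ iu S))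
          (fun ω => (F.blb w c M ω, (G ω, F.T ω))) := by
        rw [← hb0]
        refine hoc F.Ω _ _ _ p (fun r => F.lbr w c M r) (F.lbr w c M X) (fun ω => (G ω, F.T ω))
          (fun r => rmu F w c M X r i₀) (fun r => rmd F c M X r i₀) (fun r => rmd F c M X r iu)
          (fun r => rmu F w c M X r iu) (fun _ => S) (fun r => rnu F w c M X r i₀ iu S) (F.wt w) d X
          hd1 hdX ?_ ?_ ?_ ?_
        · intro r _ _
          exact ocdata hp i₀ iu dT (hSr r) hS4
        · intro r _ _ ω ω' _ _ e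
          exact lbr_mono (r := 0) (Nat.zero_le _) (Prod.ext_iff.mp e).1
        · intro r _ hr
          exact oclink i₀ iu dT (hSr r) hr
        · intro r X' hdr hdX' hηX' hrX E hE
          have hηX : η * X ≤ X' := (mul_le_mul_of_nonneg_right hηη hX0.le).trans hηX'
          have hEa : ϖa ≤ Pe p E := hϖao.trans hE
          have hE' : ϖ' ≤ Pe p E := hϖ'a.trans hEa
          obtain ⟨⟨kT, kA, kB, kM⟩, kW⟩ := blk r X' hdr hdX' hηX hrX E hEa
          have t1 := hT E hE'
          have hq : IsLaw (Pool.Agent.H49.Ent.cond p E True) := ev_law hp hϖ'0 hE'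
          have hX'0 : (0 : ℝ) < X' := by
            have : 0 < η * X := by positivity
            linarith only [hηX, this]
          have hX'1 : 0 < X' := by exact_mod_cast hX'0
          have hκη : μ * η / 2 * (X : ℝ) ≤ X' := by nlinarith only [hbig2, hμ1, hμ0, hηX]
          have t2 := hB r X' hdr hκη hrX E hE'
          obtain ⟨Y, hY⟩ : ∃ Y, Y = jj * min u 1 / 16 * X' := ⟨_, rfl⟩
          have hY0 : 0 ≤ Y := by rw [hY]; positivity
          have eY : jj * min u 1 / 8 * (X' : ℝ) = 2 * Y := by rw [hY]; ring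
          have e3 : ℓ * X ≤ jj * min u 1 / 16 * (η * X) := by
            have h1 : ℓ * X = jj * min u 1 / 16 * (η * X) * ϖ' := by rw [hl]; ring
            rw [h1]
            have h2 : 0 ≤ jj * min u 1 / 16 * (η * X) := by positivity
            nlinarith only [h1, hu0, hϖa1, hϖ'a, hl45, hl7, hl15, hbig, hϖ'0]
          have e4 : jj * min u 1 / 16 * (η * X) ≤ jj * min u 1 / 16 * X' :=
            mul_le_mul_of_nonneg_left hηX (by positivity)
          have y4 : ℓ * X ≤ Y := by rw [hY]; linarith only [e3, e4]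
          have y1 : 16 * Y ≤ ι * X' := by
            rw [hY]
            have h1 : jj * min u 1 * X' ≤ jj * 1 * X' :=
              mul_le_mul_of_nonneg_right (mul_le_mul_of_nonneg_left (min_le_right _ _) hjj0.le) hX'0.le
            have h2 : jj * X' ≤ ι * X' := mul_le_mul_of_nonneg_right hjι hX'0.le
            linarith only [h1, h2]
          have y2 : 16 * Y ≤ ι₃ * X' * u := by
            rw [hY]
            have h1 : jj * min u 1 * X' ≤ jj * u * X' :=
              mul_le_mul_of_nonneg_right (mul_le_mul_of_nonneg_left (min_le_left _ _) hjj0.le) hX'0.le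
            have h2 : jj * (X' * u) ≤ ι₃ * (X' * u) :=
              mul_le_mul_of_nonneg_right hjι₃ (mul_nonneg hX'0.le hu0.le)
            linarith only [h1, h2]
          rw [eY] at kT kA kB kM
          rw [hu] at kW
          refine ochypT (k' := k') (eT := 2 * Y) (eN := εT * η / 3 * X)
            (eA := 2 * Y) (eB := 2 * Y) (eM := 2 * Y) (eW := 4 * μ * X' * Real.log 2)
            (ε₀ := ε₁ / 3) hq hrX
            (det_ev hp.nonneg hM) ?_ kT ?_ kA kB kM kW t2 ?_ ?_ ?_ ?_ ?_ ?_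
          · intro ω hω
            exact hS4 ω ((ev_pos hp.nonneg).1 hω).1
          · have h1 : ∑ i ∈ Finset.range X', nr (Pool.Agent.H49.Ent.cond p E True) (slam F w)
                (F.wt w) k' i ≤ εN * X := by
              refine le_trans ?_ t1.nr
              refine Finset.sum_le_sum_of_subset_of_nonneg ?_ fun i _ _ => nr_nonneg hq.nonneg _ _ _ _
              exact Finset.range_subset_range.2 (by omega)
            have h2 : εN * X ≤ εT * η / 3 * X := mul_le_mul_of_nonneg_right hεN1 hX0.le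
            exact h1.trans h2
          · refine le_trans ?_ t1.h6
            refine near_mono hq (slam F w) S ?_
            refine Real.rpow_le_rpow_of_exponent_le (by norm_num) ?_
            have := mul_le_mul_of_nonneg_left hηX hx₀.le
            linarith only [this]
          · linarith only [hu0, hl45, hl7, hl15, hbig, hY, e3, e4, y1]
          · have h1 : εT * (η * X) ≤ εT * X' := mul_le_mul_of_nonneg_left hηX hεT.le
            linarith only [h1]
          · have : Real.log 45 ≤ Y := by linarith only [hu0, hl7, hl15, hbig, hY, e3, e4]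
            linarith only [hu0, hl45, hl7, hl15, hbig, hY, e3, e4, y1]
          · have h1 : 2 * Real.log 7 ≤ Y := by linarith only [hu0, hl45, hl15, hbig, hY, e3, e4]
            have h2 : 64 * μ * (X' * u) ≤ ι₃ * (X' * u) :=
              mul_le_mul_of_nonneg_right hμι (mul_nonneg hX'0.le hu0.le)
            rw [← hu]
            linarith only [hu0, hl45, hl7, hl15, hbig, hY, e3, e4, y2, h2]
          · linarith only
      -- the whole block at `r = 0`, on the event `True`
      exact by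
       have hP1 : Pe p (fun _ => True) = 1 := by
         rw [Pe_eq]
         simp only [if_true]
         exact hp.sum_one
       have hcT : Pool.Agent.H49.Ent.cond p (fun _ : F.Ω => True) True = p := by
         funext ω
         unfold Pool.Agent.H49.Ent.cond
         rw [if_pos rfl]
         have : law p (fun _ : F.Ω => True) True = 1 := hP1
         rw [this, div_one]
       have hηX1 : η * X ≤ X := mul_le_of_le_one_left hX0.le hη1
       obtain ⟨-, kW⟩ := blk 0 X (dvd_zero _) (by rw [hX]; exact Dvd.intro_left (n₀ + 1) rfl) hηX1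
         (by omega) (fun _ => True) (by rw [hP1]; exact hϖa1)
       rw [hcT] at kW
       have hd0 := hD 0 (dvd_zero _) (by omega)
       have hc0 : (fun i => c i + 0) = c := by funext i; ring
       rw [hc0] at hd0 kW
       rw [hu] at kW
       have hℓε : ℓ * X ≤ ε * X * u / 16 := by
         have h1 : ℓ ≤ ε * u / 16 := by
           have h2 : ℓ ≤ jj * u / 16 := by
             rw [hl]
             have h3 : jj * η * min u 1 * ϖ' ≤ jj * 1 * u * 1 := by
               refine mul_le_mul (mul_le_mul (mul_le_mul_of_nonneg_left hη1 hjj0.le)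
                 (min_le_left _ _) hm0.le (by positivity)) hϖ'1 hϖ'0.le (by positivity)
             linarith only [h3]
           have h4 : jj * u ≤ ε * u := mul_le_mul_of_nonneg_right hjε hu0.le
           linarith only [h2, h4]
         have h5 := mul_le_mul_of_nonneg_right h1 hX0.le
         linarith only [h5]
       exact by
        have fin := pair_of (G := G) (i₀ := i₀) (iu := iu) (w := w) (c := c) (M := M) (S := S)
          (X := X) hp hS4 (e := ε / 2 * X * u) (eA := ℓ * X) (eM := ℓ * X)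
          (eW := 4 * μ * X * Real.log 2) (by
            refine le_trans (le_of_eq ?_) hnu
            rw [← hu]
            ring) hd0.a hd0.m kW
        rw [← hu] at fin ⊢
        have e5 : 0 ≤ ε * X * u := by positivity
        have e6 : 64 * μ * (X * u) ≤ ε * (X * u) :=
          mul_le_mul_of_nonneg_right hμε (mul_nonneg hX0.le hu0.le)
        refine ⟨le_trans ?_ fin.1, le_trans ?_ fin.2⟩
        · have e4 : (1 - ε) * X * u = X * u - ε * X * u := by ring
          rw [e4]
          linarith only [hu0, hl45, hl7, hl15, hbig, hℓε]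
        · have e4 : (2 - ε) * X * u = 2 * X * u - ε * X * u := by ring
          rw [e4]
          linarith only [hu0, hl45, hl7, hl15, hbig, hℓε, e6]

end Pool.UEG
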